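import Mathlib

/-!
# F-algebras, invariant means and invariant subspace properties

Definitions shared by the hand-ins for `MP_12dd5c_an` and `MP_2f0599_an`.
-/

open scoped Topology ComplexOrder Pointwise

namespace Pool.Agent.R298.FA

/-- An F-algebra structure on the complex Banach algebra `A` with dual von Neumann algebra `M`:
the C*-algebra `M` is isometrically isomorphic to the Banach dual `A^*` (so `M` is a
W*-algebra with predual `A`), and the identity of `M` is a multiplicative functional on `A`. -/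
structure FAlgebra (A M : Type*) [NonUnitalNormedRing A] [NormedSpace ℂ A]
    [IsScalarTower ℂ A A] [SMulCommClass ℂ A A] [CompleteSpace A] [CStarAlgebra M] where
  /-- the identification of `M` with the dual of `A` -/
  dual : M ≃ₗᵢ[ℂ] (A →L[ℂ] ℂ)
  /-- the identity of `M` is multiplicative on `A` -/
  one_mul : ∀ a b : A, dual 1 (a * b) = dual 1 a * dual 1 b

section

variable {A M : Type*} [NonUnitalNormedRing A] [NormedSpace ℂ A]
    [IsScalarTower ℂ A A] [SMulCommClass ℂ A A] [CompleteSpace A] [CStarAlgebra M]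

/-- `P₁(A)`: the elements `a` of `A` which are positive as functionals on `M` and satisfy
`⟨a, e⟩ = 1`. It carries the norm topology of `A`. -/
def P1 (F : FAlgebra A M) : Set A :=
  {a | (∀ y : M, 0 ≤ F.dual (star y * y) a) ∧ F.dual 1 a = 1}

variable (A) in
/-- The right action of `A` on `A^*`: `⟨x, f · a⟩ = ⟨a x, f⟩`. -/
noncomputable def act (f : A →L[ℂ] ℂ) (a : A) : A →L[ℂ] ℂ :=
  f.comp (ContinuousLinearMap.mul ℂ A a)

omit [CompleteSpace A] in
lemma act_apply (f : A →L[ℂ] ℂ) (a x : A) : act A f a x = f (a * x) := rfl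

omit [CompleteSpace A] in
lemma act_add (f g : A →L[ℂ] ℂ) (a : A) : act A (f + g) a = act A f a + act A g a := rfl

omit [CompleteSpace A] in
lemma act_smul (c : ℂ) (f : A →L[ℂ] ℂ) (a : A) : act A (c • f) a = c • act A f a := rfl

omit [CompleteSpace A] in
lemma act_zero (a : A) : act A 0 a = 0 := rfl

variable (A) in
/-- `AP(A)`: the functionals `f` for which `a ↦ f · a`, `A → A^*`, is a compact operator. -/
def AP : Submodule ℂ (A →L[ℂ] ℂ) where
  carrier := {f | IsCompactOperator (fun a : A => act A f a)}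
  add_mem' := by
    intro f g hf hg
    exact hf.add hg
  zero_mem' := by
    have : (fun a : A => act A 0 a) = (0 : A → (A →L[ℂ] ℂ)) := rfl
    change IsCompactOperator (fun a : A => act A 0 a)
    rw [this]
    exact isCompactOperator_zero
  smul_mem' := by
    intro c f hf
    exact hf.smul c

variable (A) in
/-- `WAP(A)`: the functionals `f` for which `a ↦ f · a`, `A → A^*`, is a weakly compact
operator, i.e. maps the unit ball of `A` into a compact subset of `A^*` with its weak topology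
`σ(A^*, A^**)`. -/
def WAP : Submodule ℂ (A →L[ℂ] ℂ) where
  carrier := {f | ∃ K : Set (WeakSpace ℂ (A →L[ℂ] ℂ)), IsCompact K ∧
    ∀ a : A, ‖a‖ ≤ 1 → toWeakSpace ℂ (A →L[ℂ] ℂ) (act A f a) ∈ K}
  add_mem' := by
    rintro f g ⟨K, hK, hfK⟩ ⟨L, hL, hgL⟩
    refine ⟨K + L, hK.add hL, fun a ha => ?_⟩
    rw [act_add, map_add]
    exact Set.add_mem_add (hfK a ha) (hgL a ha)
  zero_mem' := by
    refine ⟨{0}, isCompact_singleton, fun a _ => ?_⟩
    rw [act_zero, map_zero]
    exact Set.mem_singleton _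
  smul_mem' := by
    rintro c f ⟨K, hK, hfK⟩
    refine ⟨c • K, hK.smul c, fun a ha => ?_⟩
    rw [act_smul, map_smul]
    exact Set.smul_mem_smul_set (hfK a ha)

/-- `m` is a topological left invariant mean (TLIM) on the subspace `V` of `A^*`:
`‖m‖ = ⟨m, e⟩ = 1` (with `e ∈ V`; since `‖e‖ = 1` this says that `|⟨m, f⟩| ≤ ‖f‖` for all
`f ∈ V` and `⟨m, e⟩ = 1`) and `⟨m, f · a⟩ = ⟨m, f⟩` for all `f ∈ V`, `a ∈ P₁(A)`
(with `f · a ∈ V`). -/
def IsTLIM (F : FAlgebra A M) (V : Submodule ℂ (A →L[ℂ] ℂ)) (m : V →ₗ[ℂ] ℂ) : Prop :=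
  (∀ f : V, ‖m f‖ ≤ ‖(f : A →L[ℂ] ℂ)‖) ∧ (∃ h : F.dual 1 ∈ V, m ⟨F.dual 1, h⟩ = 1) ∧
    ∀ f : V, ∀ a ∈ P1 F, ∃ h : act A (f : A →L[ℂ] ℂ) a ∈ V, m ⟨act A f a, h⟩ = m f

end

section

variable (𝕜 : Type*) [RCLike 𝕜] {E : Type*} [AddCommGroup E] [Module 𝕜 E]

/-- `𝓛ₙ(X)`: the `n`-dimensional subspaces of `E` contained in `X` (for `n ≥ 1`). -/
def Lsub (n : ℕ) (X : Set E) : Set (Submodule 𝕜 E) :=
  {L | Module.finrank 𝕜 L = n ∧ (L : Set E) ⊆ X}

/-- `X` is `n`-consistent with respect to the operators `T s`. -/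
def Consistent {S : Type*} (T : S → E →ₗ[𝕜] E) (n : ℕ) (X : Set E) : Prop :=
  (Lsub 𝕜 n X).Nonempty ∧ ∀ L ∈ Lsub 𝕜 n X, ∀ s, L.map (T s) ∈ Lsub 𝕜 n X

/-- The restrictions of the maps `T s` to `K` form an equicontinuous family of maps `K → E`. -/
def EquicontOn {S : Type*} [TopologicalSpace E] (T : S → E →ₗ[𝕜] E) (K : Set E) : Prop :=
  ∀ x ∈ K, ∀ U ∈ 𝓝 (0 : E), ∀ᶠ y in 𝓝[K] x, ∀ s, T s y - T s x ∈ U

/-- Every map in the closure of `{T s|K}` in the product space `E^K` is continuous. -/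
def QuasiEquicontOn {S : Type*} [TopologicalSpace E] (T : S → E →ₗ[𝕜] E) (K : Set E) : Prop :=
  ∀ h ∈ closure (Set.range (fun (s : S) (x : K) => T s (x : E))), Continuous h

end

/-- The invariant subspace property with respect to a condition `P` on the operators of the
representation, restricted to compact sets `K`: for every separated locally convex space `E`
over `𝕜` and every representation `T` of the semigroup `S = P₁(A)` on `E` with `s ↦ T s x`
continuous for each `x`, such that `{T s}` satisfies `P` on each compact `K ⊆ E`: whenever `X ⊆ E`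
is `n`-consistent and `H` is a closed `S`-invariant subspace of codimension `n` with
`(x + H) ∩ X` compact for all `x`, there is `L₀ ∈ 𝓛ₙ(X)` with `T s (L₀) = L₀` for all `s`. -/
def PropertyF (𝕜 : Type) [RCLike 𝕜]
    (P : ∀ (S E : Type) [AddCommGroup E] [Module 𝕜 E] [TopologicalSpace E],
      (S → E →ₗ[𝕜] E) → Set E → Prop)
    {A M : Type} [NonUnitalNormedRing A] [NormedSpace ℂ A]
    [IsScalarTower ℂ A A] [SMulCommClass ℂ A A] [CompleteSpace A] [CStarAlgebra M]
    (F : FAlgebra A M) (n : ℕ) : Prop :=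
  ∀ (E : Type) [AddCommGroup E] [Module 𝕜 E] [Module ℝ E] [IsScalarTower ℝ 𝕜 E]
    [TopologicalSpace E] [IsTopologicalAddGroup E] [ContinuousSMul 𝕜 E]
    [LocallyConvexSpace ℝ E] [T2Space E] (T : P1 F → E →ₗ[𝕜] E),
    (∀ s t u : P1 F, (u : A) = s * t → T u = (T s).comp (T t)) →
    (∀ x : E, Continuous fun s : P1 F => T s x) →
    (∀ K : Set E, IsCompact K → P (P1 F) E T K) →
    ∀ X : Set E, Consistent 𝕜 T n X →
      ∀ H : Submodule 𝕜 E, IsClosed (H : Set E) → (∀ s, H.map (T s) ≤ H) →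
        Module.finrank 𝕜 (E ⧸ H) = n →
        (∀ x : E, IsCompact ({y | ∃ h ∈ H, y = x + h} ∩ X)) →
        ∃ L₀ ∈ Lsub 𝕜 n X, ∀ s, L₀.map (T s) = L₀

/-- Property `(F_n^A)`: the representation is equicontinuous on compact sets. -/
def PropertyFA (𝕜 : Type) [RCLike 𝕜] {A M : Type} [NonUnitalNormedRing A] [NormedSpace ℂ A]
    [IsScalarTower ℂ A A] [SMulCommClass ℂ A A] [CompleteSpace A] [CStarAlgebra M]
    (F : FAlgebra A M) (n : ℕ) : Prop :=
  PropertyF 𝕜 (fun _ _ _ _ _ T K => EquicontOn 𝕜 T K) F n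

/-- Property `(F_n^W)`: the representation is quasi-equicontinuous on compact sets. -/
def PropertyFW (𝕜 : Type) [RCLike 𝕜] {A M : Type} [NonUnitalNormedRing A] [NormedSpace ℂ A]
    [IsScalarTower ℂ A A] [SMulCommClass ℂ A A] [CompleteSpace A] [CStarAlgebra M]
    (F : FAlgebra A M) (n : ℕ) : Prop :=
  PropertyF 𝕜 (fun _ _ _ _ _ T K => QuasiEquicontOn 𝕜 T K) F n

end Pool.Agent.R298.FA
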