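import Mathlib
import Pool.Agent.H937R3.EllOne
import Pool.Agent.R298.FA.Defs

/-!
# The F-algebra `ℓ¹(G)` of a discrete monoid `G`
-/

open scoped ENNReal Topology ComplexOrder

namespace Pool.Agent.R298.FA

open H937R3

/-- The Banach space `ℓ¹(G)`, which carries the convolution product (below). -/
def EllM (G : Type*) : Type _ := L1 G

namespace EllM

variable {G : Type*} [DecidableEq G] [Monoid G]

/-- Left translation `δ_y ↦ δ_{xy}`. -/
noncomputable def transL (x : G) : L1 G →L[ℂ] L1 G :=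
  L1.lift (fun y => L1.delta (x * y)) 1 (fun y => by simp)

lemma norm_transL_le (x : G) : ‖transL x‖ ≤ 1 := L1.norm_lift_le _ _ zero_le_one _

/-- Convolution: `δ_x * δ_y = δ_{xy}`. -/
noncomputable def convL : L1 G →L[ℂ] L1 G →L[ℂ] L1 G :=
  L1.lift transL 1 norm_transL_le

@[simp] lemma convL_delta_delta (x y : G) :
    convL (L1.delta x : L1 G) (L1.delta y) = L1.delta (x * y) := by
  simp [convL, transL]

lemma norm_convL_le : ‖(convL : L1 G →L[ℂ] L1 G →L[ℂ] L1 G)‖ ≤ 1 :=
  L1.norm_lift_le _ _ zero_le_one _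

lemma conv_assoc (f g h : L1 G) : convL (convL f g) h = convL f (convL g h) := by
  let A : L1 G →L[ℂ] L1 G →L[ℂ] L1 G →L[ℂ] L1 G :=
    (ContinuousLinearMap.compL ℂ (L1 G) (L1 G) (L1 G →L[ℂ] L1 G) convL).comp convL
  let B : L1 G →L[ℂ] L1 G →L[ℂ] L1 G →L[ℂ] L1 G :=
    ((ContinuousLinearMap.compL ℂ (L1 G) (L1 G →L[ℂ] L1 G)
      (L1 G →L[ℂ] L1 G)).flip convL).comp
      ((ContinuousLinearMap.compL ℂ (L1 G) (L1 G) (L1 G)).comp convL)
  have hA : ∀ f g h, A f g h = convL (convL f g) h := fun _ _ _ => rfl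
  have hB : ∀ f g h, B f g h = convL f (convL g h) := fun _ _ _ => rfl
  have : A = B := by
    refine L1.clm_ext fun x => L1.clm_ext fun y => L1.clm_ext fun z => ?_
    rw [hA, hB]
    simp [mul_assoc]
  rw [← hA, ← hB, this]

lemma one_conv (f : L1 G) : convL (L1.delta 1) f = f := by
  have : convL (L1.delta 1) = ContinuousLinearMap.id ℂ (L1 G) := by
    refine L1.clm_ext fun x => ?_
    simp
  rw [this]
  rfl

lemma conv_one (f : L1 G) : convL f (L1.delta 1) = f := by
  have : convL.flip (L1.delta 1) = ContinuousLinearMap.id ℂ (L1 G) := by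
    refine L1.clm_ext fun x => ?_
    rw [ContinuousLinearMap.flip_apply]
    simp
  calc convL f (L1.delta 1) = convL.flip (L1.delta 1) f := rfl
    _ = f := by rw [this]; rfl

lemma conv_add (f g h : L1 G) : convL f (g + h) = convL f g + convL f h := by
  simp only [map_add]

lemma add_conv (f g h : L1 G) : convL (f + g) h = convL f h + convL g h := by
  simp only [map_add, _root_.add_apply]

lemma zero_conv (f : L1 G) : convL 0 f = 0 := by
  simp only [map_zero, _root_.zero_apply]

lemma conv_zero (f : L1 G) : convL f 0 = 0 := by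
  simp only [map_zero]

lemma norm_conv_le (f g : L1 G) : ‖convL f g‖ ≤ ‖f‖ * ‖g‖ := by
  calc ‖convL f g‖ ≤ ‖convL (G := G)‖ * ‖f‖ * ‖g‖ := ContinuousLinearMap.le_opNorm₂ _ _ _
    _ ≤ 1 * ‖f‖ * ‖g‖ := by gcongr; exact norm_convL_le
    _ = ‖f‖ * ‖g‖ := by ring

lemma smul_conv (c : ℂ) (f g : L1 G) : convL (c • f) g = c • (convL f g) := by
  simp only [map_smul, _root_.smul_apply]

lemma conv_smul (c : ℂ) (f g : L1 G) : convL f (c • g) = c • (convL f g) := by
  simp only [map_smul]

/-- The Banach space structure of `ℓ¹(G)`. -/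
@[reducible] noncomputable def preNACG (G : Type*) : NormedAddCommGroup (EllM G) :=
  lp.normedAddCommGroup (E := fun _ : G => ℂ) (p := 1)

noncomputable instance instMul : Mul (EllM G) := ⟨fun f g => convL (G := G) f g⟩

noncomputable instance instOne : One (EllM G) := ⟨L1.delta 1⟩

noncomputable instance instRing : Ring (EllM G) :=
  { (preNACG G).toAddCommGroup, (instMul : Mul (EllM G)), (instOne : One (EllM G)) with
    left_distrib := conv_add
    right_distrib := add_conv
    zero_mul := zero_conv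
    mul_zero := conv_zero
    mul_assoc := conv_assoc
    one_mul := one_conv
    mul_one := conv_one }

noncomputable instance instNormedRing : NormedRing (EllM G) :=
  { preNACG G, (instRing : Ring (EllM G)) with
    norm_mul_le := norm_conv_le }

@[reducible] noncomputable def preAlgebra : Algebra ℂ (EllM G) :=
  letI : Module ℂ (EllM G) := (NormedSpace.toModule : Module ℂ (L1 G))
  Algebra.ofModule smul_conv conv_smul

noncomputable instance instNormedAlgebra : NormedAlgebra ℂ (EllM G) :=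
  { (preAlgebra : Algebra ℂ (EllM G)) with
    norm_smul_le := fun c f => norm_smul_le (α := ℂ) (β := L1 G) c f }

instance instComplete : CompleteSpace (EllM G) :=
  (lp.completeSpace : CompleteSpace (lp (fun _ : G => ℂ) 1))

/-- The point mass at `x`. -/
noncomputable def delta (x : G) : EllM G := L1.delta x

lemma one_def : (1 : EllM G) = delta 1 := rfl

@[simp] lemma norm_delta (x : G) : ‖(delta x : EllM G)‖ = 1 := L1.norm_delta x

@[simp] lemma delta_mul_delta (x y : G) : (delta x * delta y : EllM G) = delta (x * y) :=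
  convL_delta_delta x y

/-- The value of `f ∈ ℓ¹(G)` at `x`. -/
def coeff (f : EllM G) (x : G) : ℂ := (show L1 G from f) x

lemma coeff_delta (x y : G) : coeff (delta x) y = if y = x then 1 else 0 := L1.delta_apply x y

lemma norm_eq (f : EllM G) : ‖f‖ = ∑' x, ‖coeff f x‖ := L1.norm_eq f

lemma summable_norm (f : EllM G) : Summable fun x => ‖coeff f x‖ := L1.summable_norm f

lemma norm_coeff_le (f : EllM G) (x : G) : ‖coeff f x‖ ≤ ‖f‖ :=
  lp.norm_apply_le_norm (E := fun _ : G => ℂ) (p := 1) one_ne_zero _ x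

/-- Two continuous linear maps on `ℓ¹(G)` agreeing on point masses are equal. -/
lemma clm_ext {E : Type*} [NormedAddCommGroup E] [NormedSpace ℂ E]
    {S T : EllM G →L[ℂ] E} (h : ∀ x, S (delta x) = T (delta x)) : S = T :=
  L1.clm_ext (G := G) (S := (S : L1 G →L[ℂ] E)) (T := (T : L1 G →L[ℂ] E)) h

/-- The continuous linear map `f ↦ ∑ₓ f(x) v(x)` given by a bounded family `v`. -/
noncomputable def lift {E : Type*} [NormedAddCommGroup E] [NormedSpace ℂ E] [CompleteSpace E]
    (v : G → E) (C : ℝ) (hv : ∀ x, ‖v x‖ ≤ C) : EllM G →L[ℂ] E :=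
  (L1.lift v C hv : L1 G →L[ℂ] E)

@[simp] lemma lift_delta {E : Type*} [NormedAddCommGroup E] [NormedSpace ℂ E] [CompleteSpace E]
    (v : G → E) (C : ℝ) (hv : ∀ x, ‖v x‖ ≤ C) (x : G) :
    lift v C hv (delta x) = v x := L1.lift_delta v C hv x

lemma lift_apply {E : Type*} [NormedAddCommGroup E] [NormedSpace ℂ E] [CompleteSpace E]
    (v : G → E) (C : ℝ) (hv : ∀ x, ‖v x‖ ≤ C) (f : EllM G) :
    lift v C hv f = ∑' x, coeff f x • v x := rfl

lemma norm_lift_le {E : Type*} [NormedAddCommGroup E] [NormedSpace ℂ E] [CompleteSpace E]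
    (v : G → E) (C : ℝ) (hC : 0 ≤ C) (hv : ∀ x, ‖v x‖ ≤ C) : ‖lift v C hv‖ ≤ C :=
  L1.norm_lift_le v C hC hv

lemma hasSum_delta (f : EllM G) : HasSum (fun x => coeff f x • (delta x : EllM G)) f := by
  have h := lp.hasSum_single (E := fun _ : G => ℂ) (p := 1) (by norm_num)
    (show L1 G from f)
  have h2 : (fun x => coeff f x • (delta x : EllM G))
      = fun x => (lp.single 1 x ((show L1 G from f) x) : lp (fun _ : G => ℂ) 1) := by
    funext x
    have h3 : (lp.single 1 x ((show L1 G from f) x) : lp (fun _ : G => ℂ) 1)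
        = (coeff f x) • (lp.single 1 x (1 : ℂ) : lp (fun _ : G => ℂ) 1) := by
      rw [← lp.single_smul]
      congr 1
      simp [coeff]
    rw [h3]
    rfl
  rw [h2]
  exact h

end EllM

section dual

variable (G : Type) [DecidableEq G] [Monoid G]

/-- `ℓ^∞(G)`. -/
abbrev LInf : Type := lp (fun _ : G => ℂ) ∞

noncomputable instance : CStarAlgebra (LInf G) where

variable {G}

/-- The functional on `ℓ¹(G)` given by a bounded function. -/
noncomputable def toFun' (y : LInf G) : EllM G →L[ℂ] ℂ :=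
  EllM.lift (fun x => y x) ‖y‖ (fun x => lp.norm_apply_le_norm ENNReal.top_ne_zero y x)

@[simp] lemma toFun'_delta (y : LInf G) (x : G) : toFun' y (EllM.delta x) = y x :=
  EllM.lift_delta _ _ _ _

lemma norm_toFun' (y : LInf G) : ‖toFun' y‖ = ‖y‖ := by
  apply le_antisymm
  · exact EllM.norm_lift_le _ _ (norm_nonneg _) _
  · refine lp.norm_le_of_forall_le (norm_nonneg _) (fun x => ?_)
    rw [← toFun'_delta]
    refine ((toFun' y).le_opNorm _).trans ?_
    rw [EllM.norm_delta, mul_one]

/-- The bounded function `x ↦ φ(δ_x)` of a functional `φ` on `ℓ¹(G)`. -/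
noncomputable def ofFun' (φ : EllM G →L[ℂ] ℂ) : LInf G :=
  ⟨fun x => φ (EllM.delta x), memℓp_infty ⟨‖φ‖, by
    rintro _ ⟨x, rfl⟩
    refine (φ.le_opNorm _).trans ?_
    rw [EllM.norm_delta, mul_one]⟩⟩

/-- `ℓ^∞(G)` is the dual of `ℓ¹(G)`. -/
noncomputable def dualIso : LInf G ≃ₗᵢ[ℂ] (EllM G →L[ℂ] ℂ) where
  toFun := toFun'
  invFun := ofFun'
  left_inv y := by
    ext x
    exact toFun'_delta y x
  right_inv φ := by
    refine EllM.clm_ext fun x => ?_
    rw [toFun'_delta]
    rfl
  map_add' y z := by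
    refine EllM.clm_ext fun x => ?_
    rw [add_apply, toFun'_delta, toFun'_delta, toFun'_delta]
    rfl
  map_smul' c y := by
    refine EllM.clm_ext fun x => ?_
    rw [RingHom.id_apply, smul_apply, toFun'_delta, toFun'_delta]
    rfl
  norm_map' y := norm_toFun' y

lemma dualIso_delta (y : LInf G) (x : G) : dualIso y (EllM.delta x) = y x := toFun'_delta y x

lemma dualIso_one_delta (x : G) : dualIso (1 : LInf G) (EllM.delta x) = 1 := by
  rw [dualIso_delta]
  rfl

lemma dualIso_apply (y : LInf G) (f : EllM G) :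
    dualIso y f = ∑' x, EllM.coeff f x * y x := rfl

variable (G) in
/-- The F-algebra `ℓ¹(G)`. -/
noncomputable def ellF : FAlgebra (EllM G) (LInf G) where
  dual := dualIso
  one_mul a b := by
    let e : EllM G →L[ℂ] ℂ := dualIso (1 : LInf G)
    let B₁ : EllM G →L[ℂ] EllM G →L[ℂ] ℂ :=
      (ContinuousLinearMap.compL ℂ (EllM G) (EllM G) ℂ e).comp (ContinuousLinearMap.mul ℂ (EllM G))
    let B₂ : EllM G →L[ℂ] EllM G →L[ℂ] ℂ :=
      ((ContinuousLinearMap.compL ℂ (EllM G) ℂ ℂ).flip e).comp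
        ((ContinuousLinearMap.mul ℂ ℂ).comp e)
    have h : B₁ = B₂ := by
      refine EllM.clm_ext fun x => EllM.clm_ext fun y => ?_
      change e (EllM.delta x * EllM.delta y) = e (EllM.delta x) * e (EllM.delta y)
      rw [EllM.delta_mul_delta]
      simp only [e, dualIso_one_delta, mul_one]
    have := congrArg (fun T : EllM G →L[ℂ] EllM G →L[ℂ] ℂ => T a b) h
    exact this

lemma ellF_dual (y : LInf G) (f : EllM G) : (ellF G).dual y f = ∑' x, EllM.coeff f x * y x := rfl

lemma ellF_one_delta (x : G) : (ellF G).dual 1 (EllM.delta x) = 1 := dualIso_one_delta x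

lemma delta_mem_P1 (x : G) : EllM.delta x ∈ P1 (ellF G) := by
  refine ⟨fun y => ?_, ellF_one_delta x⟩
  change 0 ≤ dualIso (star y * y) (EllM.delta x)
  rw [dualIso_delta]
  change 0 ≤ star (y x) * y x
  exact star_mul_self_nonneg _

lemma coeff_nonneg {s : EllM G} (hs : s ∈ P1 (ellF G)) (x : G) : 0 ≤ EllM.coeff s x := by
  have h := hs.1 (lp.single ∞ x (1 : ℂ))
  rw [ellF_dual, tsum_eq_single x] at h
  · have h2 : (star (lp.single ∞ x (1 : ℂ) : LInf G) * (lp.single ∞ x (1 : ℂ) : LInf G)) x = 1 := by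
      change star ((lp.single ∞ x (1 : ℂ) : LInf G) x) * (lp.single ∞ x (1 : ℂ) : LInf G) x = 1
      simp
    rw [h2, mul_one] at h
    exact h
  · intro y hy
    have h2 : (star (lp.single ∞ x (1 : ℂ) : LInf G) * (lp.single ∞ x (1 : ℂ) : LInf G)) y = 0 := by
      change star ((lp.single ∞ x (1 : ℂ) : LInf G) y) * (lp.single ∞ x (1 : ℂ) : LInf G) y = 0
      simp [Pi.single_apply, hy]
    rw [h2, mul_zero]

lemma tsum_coeff {s : EllM G} (hs : s ∈ P1 (ellF G)) : ∑' x, EllM.coeff s x = 1 := by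
  have h := hs.2
  rw [ellF_dual] at h
  rw [← h]
  refine tsum_congr fun x => ?_
  change _ = EllM.coeff s x * 1
  rw [mul_one]

end dual

end Pool.Agent.R298.FA
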