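import Mathlib

/-!
# A monoid of weighted step maps

`Gam` consists of `scal n` (the identity map of `ℕ` with weight `n`) and `step m p q j` (the step
map `i ↦ if i ≤ m then q else p` with weight `m + 1 + j`). The product is composition of maps and
addition of weights.
-/

namespace Pool.Agent.R298.FA

/-- The weighted step maps. -/
inductive Gam : Type
  /-- the identity map with weight `n` -/
  | scal (n : ℕ) : Gam
  /-- the map `i ↦ if i ≤ m then q else p` with weight `m + 1 + j` -/
  | step (m p q j : ℕ) : Gam

namespace Gam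

noncomputable instance : DecidableEq Gam := Classical.decEq _

/-- The step map `i ↦ if i ≤ m then q else p`. -/
def ev (m p q i : ℕ) : ℕ := if i ≤ m then q else p

lemma ev_ev (f : ℕ → ℕ) (m p q i : ℕ) : ev m (f p) (f q) i = f (ev m p q i) := by
  unfold ev
  split <;> rfl

/-- The product. -/
def mul : Gam → Gam → Gam
  | scal n, scal n' => scal (n + n')
  | scal n, step m p q j => step m p q (n + j)
  | step m p q j, scal n => step m p q (j + n)
  | step m' p' q' j', step m p q j => step m (ev m' p' q' p) (ev m' p' q' q) (m' + 1 + j' + j)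

instance : Mul Gam := ⟨mul⟩

instance : One Gam := ⟨scal 0⟩

@[simp] lemma one_def : (1 : Gam) = scal 0 := rfl

@[simp] lemma scal_mul_scal (n n' : ℕ) : scal n * scal n' = scal (n + n') := rfl

@[simp] lemma scal_mul_step (n m p q j : ℕ) : scal n * step m p q j = step m p q (n + j) := rfl

@[simp] lemma step_mul_scal (n m p q j : ℕ) : step m p q j * scal n = step m p q (j + n) := rfl

@[simp] lemma step_mul_step (m' p' q' j' m p q j : ℕ) :
    step m' p' q' j' * step m p q j
      = step m (ev m' p' q' p) (ev m' p' q' q) (m' + 1 + j' + j) := rfl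

instance : Monoid Gam where
  mul_assoc := by
    rintro (n | ⟨m, p, q, j⟩) (n' | ⟨m', p', q', j'⟩) (n'' | ⟨m'', p'', q'', j''⟩)
    all_goals simp only [scal_mul_scal, scal_mul_step, step_mul_scal, step_mul_step, ev_ev,
      Gam.scal.injEq, Gam.step.injEq, true_and]
    all_goals omega
  one_mul := by
    rintro (n | ⟨m, p, q, j⟩) <;> simp
  mul_one := by
    rintro (n | ⟨m, p, q, j⟩) <;> simp

/-- The constant map `p` with weight `n + 1`. -/
def kap (p n : ℕ) : Gam := step 0 p p n

lemma scal_mul_kap (i p n : ℕ) : scal i * kap p n = kap p (i + n) := rfl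

lemma step_mul_kap (m' p' q' j' p n : ℕ) :
    step m' p' q' j' * kap p n = kap (ev m' p' q' p) (m' + 1 + j' + n) := rfl

lemma ev_of_lt {m p q i : ℕ} (h : m < i) : ev m p q i = p := by
  unfold ev
  rw [if_neg (by omega)]

lemma ev_of_le {m p q i : ℕ} (h : i ≤ m) : ev m p q i = q := by
  unfold ev
  rw [if_pos h]

lemma exists_mul_kap (t : Gam) : ∃ σ i : ℕ, ∀ n, t * kap 0 n = kap σ (i + n) := by
  rcases t with (n | ⟨m, p, q, j⟩)
  · exact ⟨0, n, fun k => scal_mul_kap n 0 k⟩
  · exact ⟨ev m p q 0, m + 1 + j, fun k => step_mul_kap m p q j 0 k⟩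

end Gam

end Pool.Agent.R298.FA
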