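import Mathlib
import Pool.Agent.R298.FA.Defs
import Pool.Agent.R298.FA.Ell
import Pool.Agent.R298.FA.Gam

/-!
# A TLIM on `WAP(ℓ¹(Gam))` and on `AP(ℓ¹(Gam))`
-/

open scoped ENNReal Topology ComplexOrder Pointwise
open Filter

namespace Pool.Agent.R298.FA

section ulim

/-- Ultrafilter limits of functionals of norm at most one. -/
lemma exists_ulim {V : Type*} [NormedAddCommGroup V] [NormedSpace ℂ V]
    (Ψ : ℕ → StrongDual ℂ V) (hΨ : ∀ n, ‖Ψ n‖ ≤ 1) :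
    ∃ Φ : StrongDual ℂ V, ‖Φ‖ ≤ 1 ∧
      ∀ v, Tendsto (fun n => Ψ n v) (hyperfilter ℕ : Filter ℕ) (𝓝 (Φ v)) := by
  have hc := WeakDual.isCompact_closedBall (𝕜 := ℂ) (E := V) 0 1
  obtain ⟨Φ, hΦ, hle⟩ := hc.ultrafilter_le_nhds'
    ((hyperfilter ℕ).map fun n => StrongDual.toWeakDual (Ψ n)) (by
      rw [Ultrafilter.mem_map]
      refine Filter.univ_mem' fun n => ?_
      simp only [Set.mem_preimage, mem_closedBall_zero_iff]
      exact hΨ n)
  refine ⟨WeakDual.toStrongDual Φ, ?_, fun v => ?_⟩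
  · simpa using hΦ
  · have h1 : Tendsto (fun n => StrongDual.toWeakDual (Ψ n)) (hyperfilter ℕ : Filter ℕ) (𝓝 Φ) := hle
    exact ((WeakDual.eval_continuous v).tendsto Φ).comp h1

end ulim

section avg

/-- Cesàro averages are asymptotically shift invariant. -/
lemma avg_shift (u : ℕ → ℂ) (C : ℝ) (hu : ∀ n, ‖u n‖ ≤ C) (i : ℕ) :
    Tendsto (fun N : ℕ => ((N : ℂ) + 1)⁻¹ * ∑ j ∈ Finset.range (N + 1), u (i + j)
      - ((N : ℂ) + 1)⁻¹ * ∑ j ∈ Finset.range (N + 1), u j) atTop (𝓝 0) := by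
  have key : ∀ N : ℕ, ((N : ℂ) + 1)⁻¹ * ∑ j ∈ Finset.range (N + 1), u (i + j)
      - ((N : ℂ) + 1)⁻¹ * ∑ j ∈ Finset.range (N + 1), u j
      = ((N : ℂ) + 1)⁻¹ * (∑ j ∈ Finset.range i, u (N + 1 + j) - ∑ j ∈ Finset.range i, u j) := by
    intro N
    have h1 := Finset.sum_range_add u i (N + 1)
    have h2 := Finset.sum_range_add u (N + 1) i
    rw [add_comm i (N + 1)] at h1
    rw [h1] at h2
    have h3 : ∑ j ∈ Finset.range (N + 1), u (i + j)
        = ∑ j ∈ Finset.range (N + 1), u j + (∑ j ∈ Finset.range i, u (N + 1 + j)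
          - ∑ j ∈ Finset.range i, u j) := by
      linear_combination h2
    rw [h3]
    ring
  have hb : ∀ N : ℕ, ‖((N : ℂ) + 1)⁻¹ * ∑ j ∈ Finset.range (N + 1), u (i + j)
      - ((N : ℂ) + 1)⁻¹ * ∑ j ∈ Finset.range (N + 1), u j‖ ≤ (2 * i * C) * ((N : ℝ) + 1)⁻¹ := by
    intro N
    rw [key, norm_mul, norm_inv]
    have h0 : ‖(N : ℂ) + 1‖ = (N : ℝ) + 1 := by
      have : ((N : ℂ) + 1) = (((N : ℝ) + 1 : ℝ) : ℂ) := by push_cast; rfl
      rw [this, Complex.norm_real, Real.norm_of_nonneg (by positivity)]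
    rw [h0, mul_comm]
    refine mul_le_mul_of_nonneg_right ?_ (by positivity)
    have h1 : ‖∑ j ∈ Finset.range i, u (N + 1 + j)‖ ≤ i * C := by
      refine (norm_sum_le _ _).trans ?_
      refine (Finset.sum_le_sum fun j _ => hu _).trans ?_
      simp
    have h2 : ‖∑ j ∈ Finset.range i, u j‖ ≤ i * C := by
      refine (norm_sum_le _ _).trans ?_
      refine (Finset.sum_le_sum fun j _ => hu _).trans ?_
      simp
    refine (norm_sub_le _ _).trans ?_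
    linarith
  refine squeeze_zero_norm hb ?_
  have h : Tendsto (fun N : ℕ => ((N : ℝ) + 1)⁻¹) atTop (𝓝 0) := by
    simpa using tendsto_one_div_add_atTop_nhds_zero_nat (𝕜 := ℝ)
  simpa using h.const_mul (2 * (i : ℝ) * C)

end avg

/-- The dual of `ℓ¹(Gam)`. -/
abbrev VV : Type := EllM Gam →L[ℂ] ℂ

/-- Evaluation of a functional at `δ_t`. -/
noncomputable def evd (t : Gam) : StrongDual ℂ VV :=
  ContinuousLinearMap.apply ℂ ℂ (EllM.delta t)

lemma evd_apply (t : Gam) (f : VV) : evd t f = f (EllM.delta t) := rfl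

lemma norm_evd_le (t : Gam) : ‖evd t‖ ≤ 1 := by
  refine ContinuousLinearMap.opNorm_le_bound _ zero_le_one fun f => ?_
  rw [evd_apply, one_mul]
  refine (f.le_opNorm _).trans ?_
  rw [EllM.norm_delta, mul_one]

theorem exists_Q : ∃ (Q1 : ℕ → ℕ → ℕ → StrongDual ℂ VV) (Q : ℕ → ℕ → StrongDual ℂ VV),
    (∀ p k j, ‖Q1 p k j‖ ≤ 1) ∧ (∀ p j, ‖Q p j‖ ≤ 1) ∧
    (∀ p k j f, Tendsto (fun l => f (EllM.delta (Gam.kap p (k + l + j + 1))))
      (hyperfilter ℕ : Filter ℕ) (𝓝 (Q1 p k j f))) ∧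
    (∀ p j f, Tendsto (fun k => Q1 p k j f) (hyperfilter ℕ : Filter ℕ) (𝓝 (Q p j f))) := by
  have h1 : ∀ p k j : ℕ, ∃ Φ : StrongDual ℂ VV, ‖Φ‖ ≤ 1 ∧
      ∀ f, Tendsto (fun l => f (EllM.delta (Gam.kap p (k + l + j + 1))))
        (hyperfilter ℕ : Filter ℕ) (𝓝 (Φ f)) := fun p k j =>
    exists_ulim (fun l => evd (Gam.kap p (k + l + j + 1))) (fun l => norm_evd_le _)
  choose Q1 hQ1 hQ1' using h1
  have h2 : ∀ p j : ℕ, ∃ Φ : StrongDual ℂ VV, ‖Φ‖ ≤ 1 ∧
      ∀ f, Tendsto (fun k => Q1 p k j f) (hyperfilter ℕ : Filter ℕ) (𝓝 (Φ f)) := fun p j =>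
    exists_ulim (fun k => Q1 p k j) (fun k => hQ1 _ _ _)
  choose Q hQ hQ' using h2
  exact ⟨Q1, Q, hQ1, hQ, hQ1', hQ'⟩

lemma hyper_gt (k : ℕ) : ∀ᶠ l in (hyperfilter ℕ : Filter ℕ), k < l := by
  have h : (hyperfilter ℕ : Filter ℕ) ≤ atTop := by
    rw [← Nat.cofinite_eq_atTop]
    exact hyperfilter_le_cofinite
  exact h (eventually_gt_atTop k)

/-- The double limit exchange for weakly almost periodic functionals. -/
lemma exchange {f : VV} (hf : f ∈ WAP (EllM Gam))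
    {Q1 : ℕ → ℕ → ℕ → StrongDual ℂ VV} {Q : ℕ → ℕ → StrongDual ℂ VV}
    (hQ1 : ∀ p k j f, Tendsto (fun l => f (EllM.delta (Gam.kap p (k + l + j + 1))))
      (hyperfilter ℕ : Filter ℕ) (𝓝 (Q1 p k j f)))
    (hQ : ∀ p j f, Tendsto (fun k => Q1 p k j f) (hyperfilter ℕ : Filter ℕ) (𝓝 (Q p j f)))
    (p q j : ℕ) : Q p j f = Q q j f := by
  obtain ⟨K, hK, hfK⟩ := hf
  obtain ⟨g, -, hg⟩ := hK.ultrafilter_le_nhds'
    ((hyperfilter ℕ).map fun k => toWeakSpace ℂ VV (act (EllM Gam) f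
      (EllM.delta (Gam.step k p q j)))) (by
      rw [Ultrafilter.mem_map]
      refine Filter.univ_mem' fun n => ?_
      exact hfK _ (by rw [EllM.norm_delta]))
  have hg1 : Tendsto (fun k => toWeakSpace ℂ VV (act (EllM Gam) f
      (EllM.delta (Gam.step k p q j)))) (hyperfilter ℕ : Filter ℕ) (𝓝 g) := hg
  set g' : VV := (toWeakSpace ℂ VV).symm g with hg'
  have hg2 : ∀ Ψ : StrongDual ℂ VV, Tendsto (fun k => Ψ (act (EllM Gam) f
      (EllM.delta (Gam.step k p q j)))) (hyperfilter ℕ : Filter ℕ) (𝓝 (Ψ g')) := by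
    intro Ψ
    have hc : Continuous fun w : WeakSpace ℂ VV => Ψ ((toWeakSpace ℂ VV).symm w) :=
      WeakBilin.eval_continuous (topDualPairing ℂ VV).flip Ψ
    exact (hc.tendsto g).comp hg1
  obtain ⟨Ψ, -, hΨ⟩ := exists_ulim (fun l => evd (Gam.kap l l)) (fun l => norm_evd_le _)
  have hA : ∀ k, Ψ (act (EllM Gam) f (EllM.delta (Gam.step k p q j))) = Q1 p k j f := by
    intro k
    refine tendsto_nhds_unique (hΨ _) ?_
    refine (hQ1 p k j f).congr' ?_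
    filter_upwards [hyper_gt k] with l hl
    rw [evd_apply, act_apply, EllM.delta_mul_delta, Gam.step_mul_kap, Gam.ev_of_lt hl]
    congr 3
    omega
  have hB : Ψ g' = Q p j f := by
    refine tendsto_nhds_unique (hg2 Ψ) ?_
    simp only [hA]
    exact hQ p j f
  have hC : ∀ l, g' (EllM.delta (Gam.kap l l)) = Q1 q l j f := by
    intro l
    refine tendsto_nhds_unique (hg2 (evd (Gam.kap l l))) ?_
    refine (hQ1 q l j f).congr' ?_
    filter_upwards [hyper_gt l] with k hk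
    rw [evd_apply, act_apply, EllM.delta_mul_delta, Gam.step_mul_kap, Gam.ev_of_le hk.le]
    congr 3
    omega
  have hD : Ψ g' = Q q j f := by
    refine tendsto_nhds_unique (hΨ g') ?_
    simp only [evd_apply, hC]
    exact hQ q j f
  rw [← hB, hD]

lemma one_apply_delta (t : Gam) : (ellF Gam).dual 1 (EllM.delta t) = 1 := ellF_one_delta t

theorem exists_mean : ∃ m : StrongDual ℂ VV, ‖m‖ ≤ 1 ∧ m ((ellF Gam).dual 1) = 1 ∧
    ∀ f ∈ WAP (EllM Gam), ∀ t : Gam, m (act (EllM Gam) f (EllM.delta t)) = m f := by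
  obtain ⟨Q1, Q, hQ1n, hQn, hQ1, hQ⟩ := exists_Q
  obtain ⟨m, hm, hm'⟩ := exists_ulim (V := VV)
    (fun N : ℕ => ((N : ℂ) + 1)⁻¹ • ∑ j ∈ Finset.range (N + 1), Q 0 j) (by
      intro N
      rw [norm_smul, norm_inv]
      have h0 : ‖(N : ℂ) + 1‖ = (N : ℝ) + 1 := by
        have : ((N : ℂ) + 1) = (((N : ℝ) + 1 : ℝ) : ℂ) := by push_cast; rfl
        rw [this, Complex.norm_real, Real.norm_of_nonneg (by positivity)]
      rw [h0]
      have h1 : ‖∑ j ∈ Finset.range (N + 1), Q 0 j‖ ≤ (N : ℝ) + 1 := by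
        refine le_trans (norm_sum_le (Finset.range (N + 1)) (fun j => Q 0 j)) ?_
        refine (Finset.sum_le_sum fun j _ => hQn 0 j).trans ?_
        simp
      calc ((N : ℝ) + 1)⁻¹ * ‖∑ j ∈ Finset.range (N + 1), Q 0 j‖
          ≤ ((N : ℝ) + 1)⁻¹ * ((N : ℝ) + 1) := by gcongr
        _ = 1 := by field_simp)
  have hmf : ∀ f : VV, Tendsto (fun N : ℕ => ((N : ℂ) + 1)⁻¹ * ∑ j ∈ Finset.range (N + 1), Q 0 j f)
      (hyperfilter ℕ : Filter ℕ) (𝓝 (m f)) := by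
    intro f
    refine (hm' f).congr fun N => ?_
    rw [smul_apply, sum_apply, smul_eq_mul]
  have hle : (hyperfilter ℕ : Filter ℕ) ≤ atTop := by
    rw [← Nat.cofinite_eq_atTop]
    exact hyperfilter_le_cofinite
  refine ⟨m, hm, ?_, fun f hf t => ?_⟩
  · have h1 : ∀ k j, Q1 0 k j ((ellF Gam).dual 1) = 1 := by
      intro k j
      refine tendsto_nhds_unique (hQ1 0 k j _) ?_
      simp only [one_apply_delta]
      exact tendsto_const_nhds
    have h2 : ∀ j, Q 0 j ((ellF Gam).dual 1) = 1 := by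
      intro j
      refine tendsto_nhds_unique (hQ 0 j _) ?_
      simp only [h1]
      exact tendsto_const_nhds
    refine tendsto_nhds_unique (hmf _) ?_
    simp only [h2]
    refine tendsto_const_nhds.congr fun N => ?_
    rw [Finset.sum_const, Finset.card_range, nsmul_eq_mul, mul_one]
    push_cast
    rw [inv_mul_cancel₀]
    exact_mod_cast Nat.succ_ne_zero N
  · obtain ⟨σ, i, hσ⟩ := t.exists_mul_kap
    have h1 : ∀ k j, Q1 0 k j (act (EllM Gam) f (EllM.delta t)) = Q1 σ k (i + j) f := by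
      intro k j
      refine tendsto_nhds_unique (hQ1 0 k j _) ?_
      refine (hQ1 σ k (i + j) f).congr fun l => ?_
      rw [act_apply, EllM.delta_mul_delta, hσ]
      congr 3
      omega
    have h2 : ∀ j, Q 0 j (act (EllM Gam) f (EllM.delta t)) = Q 0 (i + j) f := by
      intro j
      rw [exchange hf hQ1 hQ 0 σ (i + j)]
      refine tendsto_nhds_unique (hQ 0 j _) ?_
      simp only [h1]
      exact hQ σ (i + j) f
    have h3 := hmf (act (EllM Gam) f (EllM.delta t))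
    simp only [h2] at h3
    have h4 := (avg_shift (fun j => Q 0 j f) ‖f‖ (fun n => by
      refine ((Q 0 n).le_opNorm f).trans ?_
      calc ‖Q 0 n‖ * ‖f‖ ≤ 1 * ‖f‖ := by gcongr; exact hQn 0 n
        _ = ‖f‖ := one_mul _) i).mono_left hle
    have h5 := h3.sub (hmf f)
    have h6 := tendsto_nhds_unique h5 h4
    exact sub_eq_zero.mp h6

/-- The mean is topologically invariant: `m (f · a) = ⟨a, e⟩ m f`. -/
theorem exists_mean' : ∃ m : StrongDual ℂ VV, ‖m‖ ≤ 1 ∧ m ((ellF Gam).dual 1) = 1 ∧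
    ∀ f ∈ WAP (EllM Gam), ∀ a ∈ P1 (ellF Gam), m (act (EllM Gam) f a) = m f := by
  obtain ⟨m, hm, hm1, hmi⟩ := exists_mean
  refine ⟨m, hm, hm1, fun f hf a ha => ?_⟩
  let T₁ : EllM Gam →L[ℂ] ℂ :=
    m.comp ((ContinuousLinearMap.compL ℂ (EllM Gam) (EllM Gam) ℂ f).comp
      (ContinuousLinearMap.mul ℂ (EllM Gam)))
  let T₂ : EllM Gam →L[ℂ] ℂ := (m f) • (ellF Gam).dual 1
  have h : T₁ = T₂ := by
    refine EllM.clm_ext fun t => ?_
    change m (act (EllM Gam) f (EllM.delta t)) = m f * (ellF Gam).dual 1 (EllM.delta t)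
    rw [hmi f hf, one_apply_delta, mul_one]
  have h2 : m (act (EllM Gam) f a) = m f * (ellF Gam).dual 1 a :=
    congrArg (fun T : EllM Gam →L[ℂ] ℂ => T a) h
  rw [h2, ha.2, mul_one]

section general

variable {A M : Type*} [NonUnitalNormedRing A] [NormedSpace ℂ A]
    [IsScalarTower ℂ A A] [SMulCommClass ℂ A A] [CompleteSpace A] [CStarAlgebra M]

/-- `a ↦ f · a` as a linear map. -/
noncomputable def actL (f : A →L[ℂ] ℂ) : A →L[ℂ] (A →L[ℂ] ℂ) :=
  (ContinuousLinearMap.compL ℂ A A ℂ f).comp (ContinuousLinearMap.mul ℂ A)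

omit [CompleteSpace A] in
lemma actL_apply (f : A →L[ℂ] ℂ) (a : A) : actL f a = act A f a := rfl

omit [CompleteSpace A] in
lemma AP_le_WAP : AP A ≤ WAP A := by
  intro f hf
  have hf' : IsCompactOperator (actL f : A →ₗ[ℂ] (A →L[ℂ] ℂ)) := hf
  obtain ⟨K, hK, hKf⟩ := hf'.image_closedBall_subset_compact 1
  refine ⟨toWeakSpaceCLM ℂ (A →L[ℂ] ℂ) '' K,
    hK.image (toWeakSpaceCLM ℂ (A →L[ℂ] ℂ)).continuous, fun a ha => ?_⟩
  refine ⟨act A f a, hKf ⟨a, by simpa using ha, rfl⟩, rfl⟩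

omit [CompleteSpace A] in
lemma act_act (f : A →L[ℂ] ℂ) (a b : A) : act A (act A f a) b = act A f (a * b) := by
  ext x
  rw [act_apply, act_apply, act_apply, mul_assoc]

omit [CompleteSpace A] in
lemma act_mem_AP {f : A →L[ℂ] ℂ} (hf : f ∈ AP A) (a : A) : act A f a ∈ AP A := by
  have h : (fun b : A => act A (act A f a) b)
      = (fun b : A => act A f b) ∘ (ContinuousLinearMap.mul ℂ A a) := by
    funext b
    exact act_act f a b
  have hf' : IsCompactOperator (fun b : A => act A f b) := hf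
  change IsCompactOperator (fun b : A => act A (act A f a) b)
  rw [h]
  exact hf'.comp_clm (ContinuousLinearMap.mul ℂ A a)

omit [CompleteSpace A] in
lemma act_mem_WAP {f : A →L[ℂ] ℂ} (hf : f ∈ WAP A) (a : A) : act A f a ∈ WAP A := by
  obtain ⟨K, hK, hfK⟩ := hf
  set c : ℂ := ((‖a‖ + 1 : ℝ) : ℂ) with hc
  have hcn : ‖c‖ = ‖a‖ + 1 := by
    rw [hc, Complex.norm_real, Real.norm_of_nonneg (by positivity)]
  have hc0 : c ≠ 0 := by
    rw [← norm_ne_zero_iff, hcn]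
    positivity
  refine ⟨c • K, hK.smul c, fun b hb => ?_⟩
  refine ⟨toWeakSpace ℂ (A →L[ℂ] ℂ) (act A f (c⁻¹ • (a * b))), hfK _ ?_, ?_⟩
  · rw [norm_smul, norm_inv, hcn]
    have h1 : ‖a * b‖ ≤ ‖a‖ + 1 := by
      calc ‖a * b‖ ≤ ‖a‖ * ‖b‖ := norm_mul_le _ _
        _ ≤ ‖a‖ * 1 := by gcongr
        _ ≤ ‖a‖ + 1 := by linarith
    calc (‖a‖ + 1)⁻¹ * ‖a * b‖ ≤ (‖a‖ + 1)⁻¹ * (‖a‖ + 1) := by gcongr
      _ = 1 := by
        rw [inv_mul_cancel₀]
        positivity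
  · change c • toWeakSpace ℂ (A →L[ℂ] ℂ) (act A f (c⁻¹ • (a * b))) = _
    rw [← map_smul, ← actL_apply, ← map_smul, smul_smul, mul_inv_cancel₀ hc0, one_smul,
      actL_apply, act_act]

omit [CompleteSpace A] in
lemma rank_one_mem_AP {f : A →L[ℂ] ℂ} (hf : ∀ a b, f (a * b) = f a * f b) : f ∈ AP A := by
  refine ⟨(fun c : ℂ => c • f) '' Metric.closedBall 0 1,
    (isCompact_closedBall 0 1).image (by fun_prop), ?_⟩
  have h : ∀ᶠ a in 𝓝 (0 : A), ‖f a‖ ≤ 1 := by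
    have h1 : Tendsto (fun a => ‖f a‖) (𝓝 (0 : A)) (𝓝 0) := by
      have := (f.continuous.norm).tendsto 0
      simpa using this
    exact (h1.eventually (eventually_lt_nhds zero_lt_one)).mono fun a ha => ha.le
  filter_upwards [h] with a ha
  refine ⟨f a, by simpa using ha, ?_⟩
  ext x
  rw [act_apply, hf]
  rfl

lemma one_mem_AP (F : FAlgebra A M) : F.dual 1 ∈ AP A := rank_one_mem_AP F.one_mul

end general

/-- `WAP(ℓ¹(Gam))` has a TLIM. -/
theorem exists_tlim_WAP : ∃ m, IsTLIM (ellF Gam) (WAP (EllM Gam)) m := by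
  obtain ⟨m, hm, hm1, hmi⟩ := exists_mean'
  refine ⟨(m : VV →ₗ[ℂ] ℂ).comp (WAP (EllM Gam)).subtype, fun f => ?_, ⟨?_, ?_⟩, fun f a ha =>
    ⟨act_mem_WAP f.2 a, ?_⟩⟩
  · refine (m.le_opNorm _).trans ?_
    calc ‖m‖ * ‖(f : VV)‖ ≤ 1 * ‖(f : VV)‖ := by gcongr
      _ = _ := one_mul _
  · exact AP_le_WAP (one_mem_AP (ellF Gam))
  · exact hm1
  · exact hmi f f.2 a ha

/-- `AP(ℓ¹(Gam))` has a TLIM. -/
theorem exists_tlim_AP : ∃ m, IsTLIM (ellF Gam) (AP (EllM Gam)) m := by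
  obtain ⟨m, hm, hm1, hmi⟩ := exists_mean'
  refine ⟨(m : VV →ₗ[ℂ] ℂ).comp (AP (EllM Gam)).subtype, fun f => ?_, ⟨?_, ?_⟩, fun f a ha =>
    ⟨act_mem_AP f.2 a, ?_⟩⟩
  · refine (m.le_opNorm _).trans ?_
    calc ‖m‖ * ‖(f : VV)‖ ≤ 1 * ‖(f : VV)‖ := by gcongr
      _ = _ := one_mul _
  · exact one_mem_AP (ellF Gam)
  · exact hm1
  · exact hmi f (AP_le_WAP f.2) a ha

end Pool.Agent.R298.FA
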