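import Mathlib
import Pool.Agent.R298.FA.Defs
import Pool.Agent.R298.FA.Ell
import Pool.Agent.R298.FA.Gam

/-!
# A uniformly bounded representation of `P₁(ℓ¹(Gam))` on a Banach space
-/

open scoped ENNReal Topology ComplexOrder Pointwise
open Filter

namespace Pool.Agent.R298.FA

/-- The cube `[0,1]^ℕ`. -/
abbrev Cube : Type := ℕ → Set.Icc (0 : ℝ) 1

/-- The indicator of `[p, ∞)`. -/
def ind (p : ℕ) : Cube := fun k => if p ≤ k then ⟨1, by simp⟩ else ⟨0, by simp⟩

lemma ind_coe (p k : ℕ) : ((ind p k : Set.Icc (0 : ℝ) 1) : ℝ) = if p ≤ k then 1 else 0 := by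
  unfold ind
  split <;> rfl

/-- A Banach space `E` with an affine embedding `Phi` of the cube and coordinate functionals. -/
structure Dat (𝕜 : Type) [RCLike 𝕜] (E : Type) [NormedAddCommGroup E] [NormedSpace 𝕜 E] where
  Phi : Cube → E
  tau : E →L[𝕜] 𝕜
  phi : ℕ → E →L[𝕜] 𝕜
  cont : Continuous Phi
  norm_Phi : ∀ F, ‖Phi F‖ ≤ 1
  norm_tau : ‖tau‖ ≤ 1
  norm_phi : ∀ m, ‖phi m‖ ≤ 2 ^ (m + 1)
  tau_Phi : ∀ F, tau (Phi F) = 1
  phi_Phi : ∀ m F, phi m (Phi F) = ((F m : ℝ) : 𝕜)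
  ext : ∀ x y : E, tau x = tau y → (∀ m, phi m x = phi m y) → x = y

namespace Dat

variable {𝕜 : Type} [RCLike 𝕜] {E : Type} [NormedAddCommGroup E] [NormedSpace 𝕜 E]
  [NormedSpace ℝ E] [IsScalarTower ℝ 𝕜 E] (D : Dat 𝕜 E)

/-- The vectors `v_p`. -/
def vv (p : ℕ) : E := D.Phi (ind p)

omit [NormedSpace ℝ E] [IsScalarTower ℝ 𝕜 E] in
lemma phi_vv (m p : ℕ) : D.phi m (D.vv p) = if p ≤ m then 1 else 0 := by
  rw [vv, D.phi_Phi, ind_coe]
  split <;> simp

omit [NormedSpace ℝ E] [IsScalarTower ℝ 𝕜 E] in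
lemma tau_vv (p : ℕ) : D.tau (D.vv p) = 1 := D.tau_Phi _

lemma clm_real_smul (f : E →L[𝕜] 𝕜) (c : ℝ) (x : E) : f (c • x) = (c : 𝕜) * f x := by
  rw [← algebraMap_smul 𝕜 c x, map_smul, smul_eq_mul]

lemma clm_real_smul' (f : E →L[𝕜] E) (c : ℝ) (x : E) : f (c • x) = c • f x := by
  rw [← algebraMap_smul 𝕜 c x, map_smul, algebraMap_smul]

/-- The operators of the representation of `Gam`. -/
noncomputable def TT : Gam → (E →L[𝕜] E)
  | Gam.scal n => ((1 / 2 : ℝ) ^ n) • ContinuousLinearMap.id 𝕜 E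
  | Gam.step m p q j => ((1 / 2 : ℝ) ^ (m + 1 + j)) •
      ((D.phi m).smulRight (D.vv q) + (D.tau - D.phi m).smulRight (D.vv p))

lemma TT_scal (n : ℕ) (x : E) : D.TT (Gam.scal n) x = ((1 / 2 : ℝ) ^ n) • x := rfl

lemma TT_step (m p q j : ℕ) (x : E) : D.TT (Gam.step m p q j) x =
    ((1 / 2 : ℝ) ^ (m + 1 + j)) • (D.phi m x • D.vv q + (D.tau x - D.phi m x) • D.vv p) := rfl

lemma norm_TT_le (t : Gam) : ‖D.TT t‖ ≤ 3 := by
  rcases t with (n | ⟨m, p, q, j⟩)
  · change ‖((1 / 2 : ℝ) ^ n) • ContinuousLinearMap.id 𝕜 E‖ ≤ 3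
    rw [norm_smul, Real.norm_of_nonneg (by positivity)]
    have h1 : ‖ContinuousLinearMap.id 𝕜 E‖ ≤ 1 := ContinuousLinearMap.norm_id_le
    have h2 : ((1 / 2 : ℝ) ^ n) ≤ 1 := pow_le_one₀ (by norm_num) (by norm_num)
    have h3 : (0 : ℝ) ≤ (1 / 2 : ℝ) ^ n := by positivity
    nlinarith [norm_nonneg (ContinuousLinearMap.id 𝕜 E)]
  · change ‖((1 / 2 : ℝ) ^ (m + 1 + j)) •
      ((D.phi m).smulRight (D.vv q) + (D.tau - D.phi m).smulRight (D.vv p))‖ ≤ 3
    rw [norm_smul, Real.norm_of_nonneg (by positivity)]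
    have h1 : ‖(D.phi m).smulRight (D.vv q)‖ ≤ 2 ^ (m + 1) := by
      rw [ContinuousLinearMap.norm_smulRight_apply]
      calc ‖D.phi m‖ * ‖D.vv q‖ ≤ 2 ^ (m + 1) * 1 := by
            gcongr
            · exact D.norm_phi m
            · exact D.norm_Phi _
        _ = _ := mul_one _
    have h2 : ‖(D.tau - D.phi m).smulRight (D.vv p)‖ ≤ 1 + 2 ^ (m + 1) := by
      rw [ContinuousLinearMap.norm_smulRight_apply]
      calc ‖D.tau - D.phi m‖ * ‖D.vv p‖ ≤ (1 + 2 ^ (m + 1)) * 1 := by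
            gcongr
            · refine (norm_sub_le _ _).trans ?_
              gcongr
              · exact D.norm_tau
              · exact D.norm_phi m
            · exact D.norm_Phi _
        _ = _ := mul_one _
    have h3 : ‖(D.phi m).smulRight (D.vv q) + (D.tau - D.phi m).smulRight (D.vv p)‖
        ≤ 3 * 2 ^ (m + 1) := by
      refine (norm_add_le _ _).trans ?_
      have h4 : (1 : ℝ) ≤ 2 ^ (m + 1) := one_le_pow₀ (by norm_num)
      linarith
    calc (1 / 2 : ℝ) ^ (m + 1 + j) * ‖(D.phi m).smulRight (D.vv q)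
          + (D.tau - D.phi m).smulRight (D.vv p)‖
        ≤ (1 / 2 : ℝ) ^ (m + 1) * (3 * 2 ^ (m + 1)) := by
          refine mul_le_mul ?_ h3 (norm_nonneg _) (by positivity)
          exact pow_le_pow_of_le_one (by norm_num) (by norm_num) (by omega)
      _ = 3 * ((1 / 2 : ℝ) ^ (m + 1) * 2 ^ (m + 1)) := by ring
      _ = 3 := by
        rw [← mul_pow]
        norm_num

/-- `T_t v_i` for a step map. -/
lemma TT_step_vv (m p q j i : ℕ) : D.TT (Gam.step m p q j) (D.vv i)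
    = ((1 / 2 : ℝ) ^ (m + 1 + j)) • D.vv (Gam.ev m p q i) := by
  rw [TT_step, phi_vv, tau_vv]
  unfold Gam.ev
  split <;> simp

lemma TT_mul (s t : Gam) : D.TT (s * t) = (D.TT s).comp (D.TT t) := by
  ext1 x
  rw [ContinuousLinearMap.comp_apply]
  rcases s with (n | ⟨m', p', q', j'⟩) <;> rcases t with (n' | ⟨m, p, q, j⟩)
  · rw [Gam.scal_mul_scal, TT_scal, TT_scal, TT_scal, smul_smul, pow_add]
  · rw [Gam.scal_mul_step, TT_scal, TT_step, TT_step, smul_smul, ← pow_add]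
    congr 2
    omega
  · rw [Gam.step_mul_scal, TT_scal, clm_real_smul', TT_step, TT_step, smul_smul, ← pow_add]
    congr 2
    omega
  · rw [Gam.step_mul_step, TT_step D m p q j, TT_step D m, clm_real_smul', map_add, map_smul,
      map_smul, TT_step_vv, TT_step_vv, smul_comm _ ((1 / 2 : ℝ) ^ (m' + 1 + j')),
      smul_comm _ ((1 / 2 : ℝ) ^ (m' + 1 + j')), ← smul_add, smul_smul, ← pow_add]
    congr 2
    omega

/-! ### The action on the cube -/

/-- The weight of an element of `Gam`. -/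
noncomputable def zz : Gam → ℝ
  | Gam.scal n => (1 / 2 : ℝ) ^ n
  | Gam.step m _ _ j => (1 / 2 : ℝ) ^ (m + 1 + j)

lemma zz_pos (t : Gam) : 0 < zz t := by
  rcases t with (n | ⟨m, p, q, j⟩) <;> simp only [zz] <;> positivity

lemma zz_le_one (t : Gam) : zz t ≤ 1 := by
  rcases t with (n | ⟨m, p, q, j⟩) <;> exact pow_le_one₀ (by norm_num) (by norm_num)

lemma exists_cube_action (t : Gam) (F : Cube) :
    ∃ F' : Cube, D.TT t (D.Phi F) = zz t • D.Phi F' := by
  rcases t with (n | ⟨m, p, q, j⟩)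
  · exact ⟨F, rfl⟩
  · refine ⟨fun k => ⟨(F m : ℝ) * (ind q k : ℝ) + (1 - (F m : ℝ)) * (ind p k : ℝ), ?_, ?_⟩, ?_⟩
    · exact add_nonneg (mul_nonneg (F m).2.1 (ind q k).2.1)
        (mul_nonneg (sub_nonneg.mpr (F m).2.2) (ind p k).2.1)
    · calc (F m : ℝ) * (ind q k : ℝ) + (1 - (F m : ℝ)) * (ind p k : ℝ)
          ≤ (F m : ℝ) * 1 + (1 - (F m : ℝ)) * 1 :=
            add_le_add (mul_le_mul_of_nonneg_left (ind q k).2.2 (F m).2.1)
              (mul_le_mul_of_nonneg_left (ind p k).2.2 (sub_nonneg.mpr (F m).2.2))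
        _ = 1 := by ring
    · rw [TT_step]
      change (1 / 2 : ℝ) ^ (m + 1 + j) • _ = (1 / 2 : ℝ) ^ (m + 1 + j) • _
      congr 1
      rw [D.phi_Phi, D.tau_Phi]
      refine D.ext _ _ ?_ fun n => ?_
      · rw [map_add, map_smul, map_smul, tau_vv, tau_vv, D.tau_Phi]
        simp
      · rw [map_add, map_smul, map_smul, vv, vv, D.phi_Phi, D.phi_Phi, D.phi_Phi]
        simp only [smul_eq_mul]
        push_cast
        ring

lemma tau_TT (t : Gam) (x : E) : D.tau (D.TT t x) = ((zz t : ℝ) : 𝕜) * D.tau x := by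
  rcases t with (n | ⟨m, p, q, j⟩)
  · rw [TT_scal, clm_real_smul]
    rfl
  · rw [TT_step, clm_real_smul, map_add, map_smul, map_smul, tau_vv, tau_vv]
    change _ = (((1 / 2 : ℝ) ^ (m + 1 + j) : ℝ) : 𝕜) * D.tau x
    congr 1
    simp

/-! ### The operators `T_s = ∑ₜ s(t) T_t` -/

lemma re_coeff_abs_le (s : EllM Gam) (t : Gam) : |(EllM.coeff s t).re| ≤ ‖EllM.coeff s t‖ :=
  Complex.abs_re_le_norm _

variable [CompleteSpace E]

lemma summable_TR (s : EllM Gam) : Summable fun t => (EllM.coeff s t).re • D.TT t := by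
  refine Summable.of_norm_bounded ((EllM.summable_norm s).mul_right 3) fun t => ?_
  rw [norm_smul, Real.norm_eq_abs]
  exact mul_le_mul (re_coeff_abs_le s t) (D.norm_TT_le t) (norm_nonneg _) (norm_nonneg _)

omit [CompleteSpace E] in
lemma norm_tsum_TR (s : EllM Gam) : ‖∑' t, (EllM.coeff s t).re • D.TT t‖ ≤ 3 * ‖s‖ := by
  rw [EllM.norm_eq, mul_comm, ← tsum_mul_right]
  refine tsum_of_norm_bounded ((EllM.summable_norm s).mul_right 3).hasSum fun t => ?_
  rw [norm_smul, Real.norm_eq_abs]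
  exact mul_le_mul (re_coeff_abs_le s t) (D.norm_TT_le t) (norm_nonneg _) (norm_nonneg _)

/-- The real linear map `s ↦ ∑ₜ (re s(t)) T_t`. -/
noncomputable def TRlin : EllM Gam →ₗ[ℝ] (E →L[𝕜] E) where
  toFun s := ∑' t, (EllM.coeff s t).re • D.TT t
  map_add' s s' := by
    rw [← (D.summable_TR s).tsum_add (D.summable_TR s')]
    refine tsum_congr fun t => ?_
    rw [← add_smul]
    rfl
  map_smul' c s := by
    rw [← (D.summable_TR s).tsum_const_smul]
    refine tsum_congr fun t => ?_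
    rw [smul_smul, RingHom.id_apply]
    congr 1
    change ((c : ℂ) * EllM.coeff s t).re = _
    simp

/-- The real linear continuous map `s ↦ ∑ₜ (re s(t)) T_t`. -/
noncomputable def TR : EllM Gam →L[ℝ] (E →L[𝕜] E) :=
  D.TRlin.mkContinuous 3 D.norm_tsum_TR

lemma TR_apply (s : EllM Gam) : D.TR s = ∑' t, (EllM.coeff s t).re • D.TT t := rfl

lemma hasSum_TR (s : EllM Gam) : HasSum (fun t => (EllM.coeff s t).re • D.TT t) (D.TR s) :=
  (D.summable_TR s).hasSum

lemma hasSum_TR_apply (s : EllM Gam) (x : E) :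
    HasSum (fun t => (EllM.coeff s t).re • D.TT t x) (D.TR s x) := by
  have h := (ContinuousLinearMap.apply 𝕜 E x).hasSum (D.hasSum_TR s)
  have h2 : (fun t => (ContinuousLinearMap.apply 𝕜 E x) ((EllM.coeff s t).re • D.TT t))
      = fun t => (EllM.coeff s t).re • D.TT t x := by
    funext t
    rw [ContinuousLinearMap.apply_apply]
    rfl
  rw [ContinuousLinearMap.apply_apply, h2] at h
  exact h

lemma norm_TR_le (s : EllM Gam) : ‖D.TR s‖ ≤ 3 * ‖s‖ := D.norm_tsum_TR s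

lemma TR_delta (t : Gam) : D.TR (EllM.delta t) = D.TT t := by
  rw [TR_apply, tsum_eq_single t]
  · simp [EllM.coeff_delta]
  · intro t' ht'
    simp [EllM.coeff_delta, ht']

end Dat

lemma coeff_eq_re {s : EllM Gam} (hs : s ∈ P1 (ellF Gam)) (t : Gam) :
    EllM.coeff s t = ((EllM.coeff s t).re : ℂ) := by
  have h := coeff_nonneg hs t
  apply Complex.ext
  · rfl
  · rw [Complex.ofReal_im]
    exact (Complex.le_def.mp h).2.symm

lemma re_coeff_nonneg {s : EllM Gam} (hs : s ∈ P1 (ellF Gam)) (t : Gam) :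
    0 ≤ (EllM.coeff s t).re := by
  have h := coeff_nonneg hs t
  exact (Complex.le_def.mp h).1

lemma hasSum_delta' {s : EllM Gam} (hs : s ∈ P1 (ellF Gam)) :
    HasSum (fun t => (EllM.coeff s t).re • (EllM.delta t : EllM Gam)) s := by
  have h := EllM.hasSum_delta s
  have h2 : (fun t => (EllM.coeff s t).re • (EllM.delta t : EllM Gam))
      = fun t => EllM.coeff s t • (EllM.delta t : EllM Gam) := by
    funext t
    rw [coeff_eq_re hs t, Complex.ofReal_re]
    rfl
  rw [h2]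
  exact h

lemma hasSum_coeff {s : EllM Gam} (hs : s ∈ P1 (ellF Gam)) :
    HasSum (fun t => (EllM.coeff s t).re) 1 := by
  have h1 : Summable fun t => EllM.coeff s t := (EllM.summable_norm s).of_norm
  have h2 := h1.hasSum
  rw [tsum_coeff hs] at h2
  have h3 := Complex.hasSum_re h2
  simpa using h3

lemma norm_eq_one {s : EllM Gam} (hs : s ∈ P1 (ellF Gam)) : ‖s‖ = 1 := by
  rw [EllM.norm_eq]
  have h : (fun t => ‖EllM.coeff s t‖) = fun t => (EllM.coeff s t).re := by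
    funext t
    rw [coeff_eq_re hs t, Complex.norm_real, Complex.ofReal_re,
      Real.norm_of_nonneg (re_coeff_nonneg hs t)]
  rw [h]
  exact (hasSum_coeff hs).tsum_eq

namespace Dat

variable {𝕜 : Type} [RCLike 𝕜] {E : Type} [NormedAddCommGroup E] [NormedSpace 𝕜 E]
  [NormedSpace ℝ E] [IsScalarTower ℝ 𝕜 E] (D : Dat 𝕜 E) [CompleteSpace E]

lemma norm_TR_le_three {s : EllM Gam} (hs : s ∈ P1 (ellF Gam)) : ‖D.TR s‖ ≤ 3 := by
  have h := D.norm_TR_le s
  rwa [norm_eq_one hs, mul_one] at h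

lemma comp_real_smul (T R : E →L[𝕜] E) (c : ℝ) : T.comp (c • R) = c • T.comp R := by
  ext x
  exact clm_real_smul' T c (R x)

/-- Multiplicativity. -/
lemma TR_mul {s t : EllM Gam} (hs : s ∈ P1 (ellF Gam)) (ht : t ∈ P1 (ellF Gam)) :
    D.TR (s * t) = (D.TR s).comp (D.TR t) := by
  have h1 : ∀ x : Gam, D.TR (EllM.delta x * t) = (D.TT x).comp (D.TR t) := by
    intro x
    have a1 := D.TR.hasSum ((hasSum_delta' ht).mul_left (EllM.delta x))
    have a2 := (D.hasSum_TR t).mul_left (D.TT x)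
    have a3 : (fun y => D.TR (EllM.delta x * ((EllM.coeff t y).re • EllM.delta y)))
        = fun y => D.TT x * ((EllM.coeff t y).re • D.TT y) := by
      funext y
      rw [mul_smul_comm, EllM.delta_mul_delta, map_smul, TR_delta, TT_mul]
      exact (comp_real_smul _ _ _).symm
    rw [a3] at a1
    exact a1.unique a2
  have a1 := D.TR.hasSum ((hasSum_delta' hs).mul_right t)
  have a2 := (D.hasSum_TR s).mul_right (D.TR t)
  have a3 : (fun y => D.TR ((EllM.coeff s y).re • EllM.delta y * t))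
      = fun y => ((EllM.coeff s y).re • D.TT y) * D.TR t := by
    funext y
    rw [smul_mul_assoc, map_smul, h1]
    rfl
  rw [a3] at a1
  exact a1.unique a2

lemma tau_TR_eq_zero (s : EllM Gam) {x : E} (hx : D.tau x = 0) : D.tau (D.TR s x) = 0 := by
  have h := D.tau.hasSum (D.hasSum_TR_apply s x)
  have h2 : (fun t => D.tau ((EllM.coeff s t).re • D.TT t x)) = fun _ => (0 : 𝕜) := by
    funext t
    rw [clm_real_smul, tau_TT, hx, mul_zero, mul_zero]
  rw [h2] at h
  exact h.unique hasSum_zero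

/-- `T_s` acts on the rays over the cube. -/
lemma TR_Phi {s : EllM Gam} (hs : s ∈ P1 (ellF Gam)) (F : Cube) :
    ∃ (c : ℝ) (G : Cube), 0 < c ∧ D.TR s (D.Phi F) = c • D.Phi G := by
  choose A hA using fun t => D.exists_cube_action t F
  set w : Gam → ℝ := fun t => (EllM.coeff s t).re * zz t with hw
  have hw0 : ∀ t, 0 ≤ w t := fun t => mul_nonneg (re_coeff_nonneg hs t) (zz_pos t).le
  have hws : Summable w := by
    refine Summable.of_nonneg_of_le hw0 (fun t => ?_) (hasSum_coeff hs).summable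
    exact mul_le_of_le_one_right (re_coeff_nonneg hs t) (zz_le_one t)
  set c : ℝ := ∑' t, w t with hc
  have hc0 : 0 < c := by
    have h1 : ∃ t, (EllM.coeff s t).re ≠ 0 := by
      by_contra hcon
      push Not at hcon
      have h2 := hasSum_coeff hs
      simp only [hcon] at h2
      exact zero_ne_one (hasSum_zero.unique h2)
    obtain ⟨t, ht⟩ := h1
    exact hws.tsum_pos hw0 t (mul_pos (lt_of_le_of_ne (re_coeff_nonneg hs t) (Ne.symm ht))
      (zz_pos t))
  have hk : ∀ k, Summable fun t => w t * (A t k : ℝ) := fun k =>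
    Summable.of_nonneg_of_le (fun t => mul_nonneg (hw0 t) (A t k).2.1)
      (fun t => mul_le_of_le_one_right (hw0 t) (A t k).2.2) hws
  have hk0 : ∀ k, 0 ≤ ∑' t, w t * (A t k : ℝ) := fun k =>
    tsum_nonneg fun t => mul_nonneg (hw0 t) (A t k).2.1
  have hk1 : ∀ k, ∑' t, w t * (A t k : ℝ) ≤ c := fun k =>
    (hk k).tsum_le_tsum (fun t => mul_le_of_le_one_right (hw0 t) (A t k).2.2) hws
  refine ⟨c, fun k => ⟨(∑' t, w t * (A t k : ℝ)) / c, div_nonneg (hk0 k) hc0.le,
    (div_le_one hc0).mpr (hk1 k)⟩, hc0, ?_⟩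
  have hsum : HasSum (fun t => w t • D.Phi (A t)) (D.TR s (D.Phi F)) := by
    have h := D.hasSum_TR_apply s (D.Phi F)
    simp only [hA, smul_smul] at h
    exact h
  refine D.ext _ _ ?_ fun k => ?_
  · have h := D.tau.hasSum hsum
    simp only [clm_real_smul, D.tau_Phi, mul_one] at h
    rw [clm_real_smul, D.tau_Phi, mul_one]
    exact h.unique ((RCLike.hasSum_ofReal 𝕜).mpr hws.hasSum)
  · have h := (D.phi k).hasSum hsum
    simp only [clm_real_smul, D.phi_Phi] at h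
    rw [clm_real_smul, D.phi_Phi]
    have h2 : (fun t => ((w t : ℝ) : 𝕜) * ((A t k : ℝ) : 𝕜))
        = fun t => ((w t * (A t k : ℝ) : ℝ) : 𝕜) := by
      funext t
      push_cast
      rfl
    rw [h2] at h
    rw [h.unique ((RCLike.hasSum_ofReal 𝕜).mpr (hk k).hasSum), ← RCLike.ofReal_mul,
      mul_div_cancel₀ _ hc0.ne']

/-- The set `X`. -/
def X : Set E := {x | ∃ F : Cube, x = D.tau x • D.Phi F}

omit [NormedSpace ℝ E] [IsScalarTower ℝ 𝕜 E] [CompleteSpace E] in
lemma Phi_ne_zero (F : Cube) : D.Phi F ≠ 0 := by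
  intro h
  have := D.tau_Phi F
  rw [h, map_zero] at this
  exact zero_ne_one this

omit [NormedSpace ℝ E] [IsScalarTower ℝ 𝕜 E] [CompleteSpace E] in
lemma mem_Lsub_iff (L : Submodule 𝕜 E) :
    L ∈ Lsub 𝕜 1 D.X ↔ ∃ F : Cube, L = Submodule.span 𝕜 {D.Phi F} := by
  constructor
  · rintro ⟨h1, h2⟩
    obtain ⟨v, hv0, hv⟩ := finrank_eq_one_iff'.mp h1
    obtain ⟨F, hF⟩ := h2 v.2
    have hτ : D.tau (v : E) ≠ 0 := by
      intro h0
      rw [h0, zero_smul] at hF
      exact hv0 (Subtype.ext hF)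
    refine ⟨F, le_antisymm (fun x hx => ?_) ?_⟩
    · obtain ⟨c, hc⟩ := hv ⟨x, hx⟩
      have hc' : c • (v : E) = x := congrArg Subtype.val hc
      rw [← hc', hF]
      exact Submodule.smul_mem _ _ (Submodule.smul_mem _ _ (Submodule.mem_span_singleton_self _))
    · rw [Submodule.span_singleton_le_iff_mem]
      have : D.Phi F = (D.tau (v : E))⁻¹ • (v : E) := by
        conv_rhs => rw [hF]
        rw [map_smul, D.tau_Phi, smul_eq_mul, mul_one, smul_smul, inv_mul_cancel₀ hτ, one_smul]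
      rw [this]
      exact L.smul_mem _ v.2
  · rintro ⟨F, rfl⟩
    refine ⟨finrank_span_singleton (D.Phi_ne_zero F), ?_⟩
    intro x hx
    obtain ⟨c, rfl⟩ := Submodule.mem_span_singleton.mp hx
    refine ⟨F, ?_⟩
    rw [map_smul, D.tau_Phi, smul_eq_mul, mul_one]

/-- The representation of `P₁(ℓ¹(Gam))`. -/
noncomputable def rep (s : P1 (ellF Gam)) : E →ₗ[𝕜] E := (D.TR (s : EllM Gam) : E →L[𝕜] E)

lemma rep_apply (s : P1 (ellF Gam)) (x : E) : D.rep s x = D.TR (s : EllM Gam) x := rfl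

lemma map_span_Phi (s : P1 (ellF Gam)) (F : Cube) :
    ∃ G : Cube, (Submodule.span 𝕜 {D.Phi F}).map (D.rep s) = Submodule.span 𝕜 {D.Phi G} := by
  obtain ⟨c, G, hc, h⟩ := D.TR_Phi s.2 F
  refine ⟨G, ?_⟩
  rw [Submodule.map_span, Set.image_singleton, rep_apply, h, ← algebraMap_smul 𝕜 c (D.Phi G)]
  refine Submodule.span_singleton_smul_eq ?_ _
  rw [isUnit_iff_ne_zero]
  exact (map_ne_zero (algebraMap ℝ 𝕜)).mpr hc.ne'

lemma consistent : Consistent 𝕜 D.rep 1 D.X := by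
  refine ⟨⟨_, (D.mem_Lsub_iff _).mpr ⟨ind 0, rfl⟩⟩, fun L hL s => ?_⟩
  obtain ⟨F, rfl⟩ := (D.mem_Lsub_iff L).mp hL
  exact (D.mem_Lsub_iff _).mpr (D.map_span_Phi s F)

lemma no_invariant (L : Submodule 𝕜 E) (hL : L ∈ Lsub 𝕜 1 D.X) :
    ¬ ∀ s, L.map (D.rep s) = L := by
  intro h
  obtain ⟨F, rfl⟩ := (D.mem_Lsub_iff L).mp hL
  have key : ∀ p : ℕ, D.vv p ∈ Submodule.span 𝕜 {D.Phi F} := by
    intro p
    have h1 := h ⟨EllM.delta (Gam.kap p 0), delta_mem_P1 _⟩
    have h2 : D.rep ⟨EllM.delta (Gam.kap p 0), delta_mem_P1 _⟩ (D.Phi F)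
        ∈ Submodule.span 𝕜 {D.Phi F} := by
      rw [← h1]
      exact Submodule.mem_map_of_mem (Submodule.mem_span_singleton_self _)
    rw [rep_apply, TR_delta] at h2
    have h3 : D.TT (Gam.kap p 0) (D.Phi F) = ((1 / 2 : ℝ) ^ (0 + 1 + 0)) • D.vv p := by
      rw [Gam.kap, TT_step, ← add_smul, add_sub_cancel, D.tau_Phi, one_smul]
    rw [h3, ← algebraMap_smul 𝕜 ((1 / 2 : ℝ) ^ (0 + 1 + 0)) (D.vv p)] at h2
    have h4 := Submodule.smul_mem _ (algebraMap ℝ 𝕜 ((1 / 2 : ℝ) ^ (0 + 1 + 0)))⁻¹ h2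
    rw [smul_smul, inv_mul_cancel₀, one_smul] at h4
    · exact h4
    · exact (map_ne_zero (algebraMap ℝ 𝕜)).mpr (by norm_num)
  obtain ⟨a, ha⟩ := Submodule.mem_span_singleton.mp (key 0)
  obtain ⟨b, hb⟩ := Submodule.mem_span_singleton.mp (key 1)
  have ha1 : a = 1 := by
    have := congrArg D.tau ha
    rwa [map_smul, D.tau_Phi, smul_eq_mul, mul_one, tau_vv] at this
  have hb1 : b = 1 := by
    have := congrArg D.tau hb
    rwa [map_smul, D.tau_Phi, smul_eq_mul, mul_one, tau_vv] at this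
  have hab : D.vv 0 = D.vv 1 := by rw [← ha, ← hb, ha1, hb1]
  have := congrArg (D.phi 0) hab
  rw [phi_vv, phi_vv] at this
  simp at this

lemma lipschitz (s : P1 (ellF Gam)) (x y : E) : ‖D.rep s y - D.rep s x‖ ≤ 3 * ‖y - x‖ := by
  rw [← map_sub, rep_apply]
  refine ((D.TR (s : EllM Gam)).le_opNorm _).trans ?_
  gcongr
  exact D.norm_TR_le_three s.2

lemma equicont (K : Set E) : EquicontOn 𝕜 D.rep K := by
  intro x _ U hU
  obtain ⟨ε, hε, hU'⟩ := Metric.mem_nhds_iff.mp hU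
  have h : ∀ᶠ y in 𝓝 x, ‖y - x‖ < ε / 3 := by
    have : Tendsto (fun y => ‖y - x‖) (𝓝 x) (𝓝 0) := by
      have h1 : Continuous fun y : E => ‖y - x‖ := by fun_prop
      have h2 := h1.tendsto x
      simpa using h2
    exact this.eventually (eventually_lt_nhds (by positivity))
  refine (h.filter_mono nhdsWithin_le_nhds).mono fun y hy s => hU' ?_
  rw [mem_ball_zero_iff]
  refine (D.lipschitz s x y).trans_lt ?_
  linarith

lemma quasiEquicont (K : Set E) : QuasiEquicontOn 𝕜 D.rep K := by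
  intro h hh
  have hcl : IsClosed {g : K → E | ∀ x y : K, ‖g y - g x‖ ≤ 3 * ‖(y : E) - x‖} := by
    simp only [Set.ofPred_forall]
    refine isClosed_iInter fun x => isClosed_iInter fun y => ?_
    exact isClosed_le (by fun_prop) continuous_const
  have hmem : h ∈ {g : K → E | ∀ x y : K, ‖g y - g x‖ ≤ 3 * ‖(y : E) - x‖} := by
    refine closure_minimal ?_ hcl hh
    rintro _ ⟨s, rfl⟩ x y
    exact D.lipschitz s x y
  have hL : LipschitzWith 3 h := by
    refine LipschitzWith.of_dist_le_mul fun x y => ?_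
    rw [dist_eq_norm, Subtype.dist_eq, dist_eq_norm]
    exact hmem y x
  exact hL.continuous

/-- The failure of the invariant subspace property. -/
theorem not_propertyF
    (P : ∀ (S E : Type) [AddCommGroup E] [Module 𝕜 E] [TopologicalSpace E],
      (S → E →ₗ[𝕜] E) → Set E → Prop)
    (hP : ∀ K : Set E, IsCompact K → P (P1 (ellF Gam)) E D.rep K) :
    ¬ PropertyF 𝕜 P (ellF Gam) 1 := by
  intro hF
  have g1 : ∀ s t u : P1 (ellF Gam), (u : EllM Gam) = s * t →
      D.rep u = (D.rep s).comp (D.rep t) := by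
    intro s t u hu
    refine LinearMap.ext fun x => ?_
    rw [rep_apply, hu, D.TR_mul s.2 t.2]
    rfl
  have g2 : ∀ x : E, Continuous fun s : P1 (ellF Gam) => D.rep s x := by
    intro x
    have h1 : Continuous fun s : P1 (ellF Gam) => D.TR (s : EllM Gam) :=
      D.TR.continuous.comp continuous_subtype_val
    exact (ContinuousLinearMap.apply 𝕜 E x).continuous.comp h1
  have g3 : IsClosed (D.tau.ker : Set E) := D.tau.isClosed_ker
  have g4 : ∀ s, D.tau.ker.map (D.rep s) ≤ D.tau.ker := by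
    intro s
    rintro _ ⟨x, hx, rfl⟩
    exact D.tau_TR_eq_zero _ hx
  have g5 : Module.finrank 𝕜 (E ⧸ D.tau.ker) = 1 := by
    have hsurj : Function.Surjective (D.tau : E →ₗ[𝕜] 𝕜) := by
      intro c
      refine ⟨c • D.Phi (ind 0), ?_⟩
      change D.tau (c • D.Phi (ind 0)) = c
      rw [map_smul, D.tau_Phi, smul_eq_mul, mul_one]
    have e := (D.tau : E →ₗ[𝕜] 𝕜).quotKerEquivOfSurjective hsurj
    have h := e.finrank_eq
    rw [Module.finrank_self] at h
    exact h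
  have g6 : ∀ x : E, IsCompact ({y | ∃ h ∈ D.tau.ker, y = x + h} ∩ D.X) := by
    intro x
    have h1 : {y | ∃ h ∈ D.tau.ker, y = x + h} ∩ D.X
        = (fun F : Cube => D.tau x • D.Phi F) '' Set.univ := by
      ext y
      constructor
      · rintro ⟨⟨h, hh, rfl⟩, F, hF'⟩
        refine ⟨F, Set.mem_univ _, ?_⟩
        have h0 : D.tau h = 0 := hh
        rw [map_add, h0, add_zero] at hF'
        exact hF'.symm
      · rintro ⟨F, -, rfl⟩
        refine ⟨⟨D.tau x • D.Phi F - x, ?_, by abel⟩, F, ?_⟩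
        · change D.tau (D.tau x • D.Phi F - x) = 0
          rw [map_sub, map_smul, D.tau_Phi, smul_eq_mul, mul_one, sub_self]
        · simp only [map_smul, D.tau_Phi, smul_eq_mul, mul_one]
    rw [h1]
    exact isCompact_univ.image (D.cont.const_smul _)
  obtain ⟨L, hL, hLi⟩ := hF E D.rep g1 g2 hP D.X D.consistent D.tau.ker g3 g4 g5 g6
  exact D.no_invariant L hL hLi

end Dat

end Pool.Agent.R298.FA
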