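import Mathlib
import Pool.Agent.R298.FA.Rep
import Pool.Agent.R298.FA.Mean

/-!
# The Banach space of the representation
-/

open scoped ENNReal Topology ComplexOrder Pointwise
open Filter

namespace Pool.Agent.R298.FA

variable (𝕜 : Type) [RCLike 𝕜]

/-- The Banach space `ℓ^∞(ℕ, 𝕜)`. -/
abbrev EE : Type := lp (fun _ : ℕ => 𝕜) ∞

/-- The unit vectors. -/
noncomputable def ee (n : ℕ) : EE 𝕜 := lp.single ∞ n (1 : 𝕜)

lemma norm_ee (n : ℕ) : ‖ee 𝕜 n‖ = 1 := by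
  rw [ee, lp.norm_single (by simp), norm_one]

/-- The weight `2^{-(k+1)}`. -/
noncomputable def wt (k : ℕ) : ℝ := (1 / 2) ^ (k + 1)

lemma wt_pos (k : ℕ) : 0 < wt k := by unfold wt; positivity

lemma wt_mul (k : ℕ) : (2 : ℝ) ^ (k + 1) * wt k = 1 := by
  unfold wt
  rw [← mul_pow]
  norm_num

lemma summable_wt : Summable wt := by
  unfold wt
  exact (summable_nat_add_iff 1).mpr (summable_geometric_of_lt_one (by norm_num) (by norm_num))

/-- The terms of `Phi`. -/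
noncomputable def term (F : Cube) (k : ℕ) : EE 𝕜 :=
  (((F k : ℝ) * wt k : ℝ) : 𝕜) • ee 𝕜 (k + 1)

lemma norm_term_le (F : Cube) (k : ℕ) : ‖term 𝕜 F k‖ ≤ wt k := by
  rw [term, norm_smul, norm_ee, mul_one, RCLike.norm_ofReal,
    abs_of_nonneg (mul_nonneg (F k).2.1 (wt_pos k).le)]
  exact mul_le_of_le_one_left (wt_pos k).le (F k).2.2

lemma summable_term (F : Cube) : Summable (term 𝕜 F) :=
  Summable.of_norm_bounded summable_wt (norm_term_le 𝕜 F)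

/-- The affine embedding of the cube: `Phi F = e₀ + ∑ₖ F(k) 2^{-(k+1)} e_{k+1}`. -/
noncomputable def PhiE (F : Cube) : EE 𝕜 := ee 𝕜 0 + ∑' k, term 𝕜 F k

lemma continuous_term (k : ℕ) : Continuous fun F : Cube => term 𝕜 F k := by
  unfold term
  have h : Continuous fun F : Cube => ((((F k : ℝ) * wt k : ℝ)) : 𝕜) := by fun_prop
  exact h.smul continuous_const

lemma continuous_PhiE : Continuous (PhiE 𝕜) :=
  continuous_const.add (continuous_tsum (continuous_term 𝕜) summable_wt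
    (fun k F => norm_term_le 𝕜 F k))

/-- Coordinates. -/
noncomputable def co (n : ℕ) : EE 𝕜 →L[𝕜] 𝕜 := lp.evalCLM 𝕜 (fun _ : ℕ => 𝕜) ∞ n

lemma co_apply (n : ℕ) (x : EE 𝕜) : co 𝕜 n x = x n := rfl

lemma norm_co_le (n : ℕ) : ‖co 𝕜 n‖ ≤ 1 := by
  refine ContinuousLinearMap.opNorm_le_bound _ zero_le_one fun x => ?_
  rw [one_mul]
  exact lp.norm_apply_le_norm ENNReal.top_ne_zero x n

lemma co_ee (n m : ℕ) : co 𝕜 n (ee 𝕜 m) = if n = m then 1 else 0 := by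
  rw [co_apply, ee]
  by_cases h : n = m
  · subst h
    simp
  · simp [h]

lemma co_term (n : ℕ) (F : Cube) (k : ℕ) :
    co 𝕜 n (term 𝕜 F k) = if n = k + 1 then (((F k : ℝ) * wt k : ℝ) : 𝕜) else 0 := by
  rw [term, map_smul, co_ee, smul_eq_mul]
  split
  · rw [mul_one]
  · rw [mul_zero]

lemma co_PhiE (n : ℕ) (F : Cube) :
    co 𝕜 n (PhiE 𝕜 F) = (if n = 0 then 1 else 0)
      + ∑' k, (if n = k + 1 then (((F k : ℝ) * wt k : ℝ) : 𝕜) else 0) := by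
  rw [PhiE, map_add, co_ee, (co 𝕜 n).map_tsum (summable_term 𝕜 F)]
  simp only [co_term]

lemma co_zero_PhiE (F : Cube) : co 𝕜 0 (PhiE 𝕜 F) = 1 := by
  rw [co_PhiE]
  simp

lemma co_succ_PhiE (m : ℕ) (F : Cube) :
    co 𝕜 (m + 1) (PhiE 𝕜 F) = (((F m : ℝ) * wt m : ℝ) : 𝕜) := by
  rw [co_PhiE, tsum_eq_single m]
  · simp
  · intro k hk
    rw [if_neg]
    omega

lemma norm_PhiE_le (F : Cube) : ‖PhiE 𝕜 F‖ ≤ 1 := by
  refine lp.norm_le_of_forall_le zero_le_one fun n => ?_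
  rw [← co_apply]
  rcases n with - | m
  · rw [co_zero_PhiE, norm_one]
  · rw [co_succ_PhiE, RCLike.norm_ofReal, abs_of_nonneg (mul_nonneg (F m).2.1 (wt_pos m).le)]
    refine mul_le_one₀ (F m).2.2 (wt_pos m).le ?_
    unfold wt
    exact pow_le_one₀ (by norm_num) (by norm_num)

/-- The functional `φₘ`. -/
noncomputable def phiE (m : ℕ) : EE 𝕜 →L[𝕜] 𝕜 := ((2 : 𝕜) ^ (m + 1)) • co 𝕜 (m + 1)

lemma phiE_apply (m : ℕ) (x : EE 𝕜) : phiE 𝕜 m x = (2 : 𝕜) ^ (m + 1) * co 𝕜 (m + 1) x := rfl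

lemma norm_phiE_le (m : ℕ) : ‖phiE 𝕜 m‖ ≤ 2 ^ (m + 1) := by
  rw [phiE, norm_smul, norm_pow, RCLike.norm_ofNat]
  calc (2 : ℝ) ^ (m + 1) * ‖co 𝕜 (m + 1)‖ ≤ 2 ^ (m + 1) * 1 := by
        gcongr
        exact norm_co_le 𝕜 _
    _ = _ := mul_one _

lemma phiE_PhiE (m : ℕ) (F : Cube) : phiE 𝕜 m (PhiE 𝕜 F) = ((F m : ℝ) : 𝕜) := by
  rw [phiE_apply, co_succ_PhiE]
  have h : (2 : 𝕜) ^ (m + 1) * (((F m : ℝ) * wt m : ℝ) : 𝕜)
      = (((F m : ℝ) * ((2 : ℝ) ^ (m + 1) * wt m) : ℝ) : 𝕜) := by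
    push_cast
    ring
  rw [h, wt_mul, mul_one]

/-- The data. -/
noncomputable def datE : Dat 𝕜 (EE 𝕜) where
  Phi := PhiE 𝕜
  tau := co 𝕜 0
  phi := phiE 𝕜
  cont := continuous_PhiE 𝕜
  norm_Phi := norm_PhiE_le 𝕜
  norm_tau := norm_co_le 𝕜 0
  norm_phi := norm_phiE_le 𝕜
  tau_Phi := co_zero_PhiE 𝕜
  phi_Phi := phiE_PhiE 𝕜
  ext := by
    intro x y h0 h1
    apply lp.ext
    funext n
    rcases n with - | m
    · exact h0
    · have h2 := h1 m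
      rw [phiE_apply, phiE_apply] at h2
      exact mul_left_cancel₀ (pow_ne_zero _ two_ne_zero) h2

/-- `(F_1^A)` fails for `ℓ¹(Gam)`. -/
theorem not_FA : ¬ PropertyFA 𝕜 (ellF Gam) 1 :=
  (datE 𝕜).not_propertyF _ (fun K _ => (datE 𝕜).equicont K)

/-- `(F_1^W)` fails for `ℓ¹(Gam)`. -/
theorem not_FW : ¬ PropertyFW 𝕜 (ellF Gam) 1 :=
  (datE 𝕜).not_propertyF _ (fun K _ => (datE 𝕜).quasiEquicont K)

end Pool.Agent.R298.FA
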