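import Mathlib

/-!
# F-algebras, invariant means and invariant subspace properties

Definitions for the hand-ins for `MP_12dd5c_an` and `MP_2f0599_an`.
-/

open scoped Topology ComplexOrder

namespace Pool.Agent.R298.FS

/-- An F-algebra (with unit): a complex Banach algebra `A` and a C*-algebra `M` which is
isometrically isomorphic to the Banach dual `A^*` by means of the pairing `pair f a = ⟨a, f⟩` (so
`M` is a W*-algebra with predual `A`), such that the identity of `M` is a multiplicative functional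
on `A`. The dual `A^*` is identified with `M` throughout. -/
structure FAlgebra where
  /-- the Banach algebra -/
  A : Type
  /-- the W*-algebra -/
  M : Type
  [ringA : NormedRing A]
  [algA : NormedAlgebra ℂ A]
  [complA : CompleteSpace A]
  [cstarM : CStarAlgebra M]
  /-- the pairing `⟨a, f⟩` of `a ∈ A` and `f ∈ M = A^*` -/
  pair : M → A → ℂ
  /-- the pairing identifies `M` with the Banach dual of `A` -/
  predual : ∃ φ : M ≃ₗᵢ[ℂ] StrongDual ℂ A, ∀ f a, φ f a = pair f a
  /-- the identity of `M` is multiplicative on `A` -/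
  one_mul : ∀ a b : A, pair 1 (a * b) = pair 1 a * pair 1 b

namespace FAlgebra

attribute [instance] ringA algA complA cstarM

variable (F : FAlgebra)

/-- `P₁(A)`: the elements `a` of `A` which are positive as functionals on `M` and satisfy
`⟨a, e⟩ = 1`. It carries the norm topology of `A`. -/
def P1 : Set F.A := {a | (∀ y : F.M, 0 ≤ F.pair (star y * y) a) ∧ F.pair 1 a = 1}

/-- `g = f · a`, where `⟨x, f · a⟩ = ⟨a x, f⟩`. -/
def IsAct (f : F.M) (a : F.A) (g : F.M) : Prop := ∀ x, F.pair g x = F.pair f (a * x)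

/-- `AP(A)`: the elements `f` of `A^* = M` for which `a ↦ f · a`, `A → A^*`, is a compact
operator. -/
def AP : Set F.M := {f | ∃ R : F.A → F.M, (∀ a, F.IsAct f a (R a)) ∧ IsCompactOperator R}

/-- `WAP(A)`: the elements `f` of `A^* = M` for which `a ↦ f · a`, `A → A^*`, is a weakly compact
operator, i.e. maps the unit ball of `A` into a compact subset of `A^*` with its weak topology
`σ(A^*, A^**)`. -/
def WAP : Set F.M :=
  {f | ∃ R : F.A → F.M, (∀ a, F.IsAct f a (R a)) ∧
    ∃ K : Set (WeakSpace ℂ F.M), IsCompact K ∧ ∀ a, ‖a‖ ≤ 1 → toWeakSpace ℂ F.M (R a) ∈ K}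

/-- `m` is a TLIM on the subspace `V` of `A^* = M` (only the values of `m` on `V` matter): `m` is
linear on `V`, `|⟨m, f⟩| ≤ ‖f‖` for `f ∈ V` and `⟨m, e⟩ = 1` (that is, `‖m‖ = ⟨m, e⟩ = 1`), and
`⟨m, f · a⟩ = ⟨m, f⟩` for all `f ∈ V` and `a ∈ P₁(A)`. -/
structure IsTLIM (V : Set F.M) (m : F.M → ℂ) : Prop where
  map_add : ∀ f ∈ V, ∀ g ∈ V, m (f + g) = m f + m g
  map_smul : ∀ c : ℂ, ∀ f ∈ V, m (c • f) = c * m f
  norm_le : ∀ f ∈ V, ‖m f‖ ≤ ‖f‖
  map_one : m 1 = 1
  map_act : ∀ f ∈ V, ∀ a ∈ F.P1, ∀ g, F.IsAct f a g → m g = m f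

end FAlgebra

section

variable (𝕜 : Type) [RCLike 𝕜] {S E : Type} [AddCommGroup E] [Module 𝕜 E]

/-- `𝓛ₙ(X)`: the `n`-dimensional subspaces of `E` contained in `X` (for `n ≥ 1`). -/
def Lsub (n : ℕ) (X : Set E) : Set (Submodule 𝕜 E) :=
  {L | Module.finrank 𝕜 L = n ∧ (L : Set E) ⊆ X}

/-- `X` is `n`-consistent with respect to the operators `T s`. -/
def Consistent (T : S → E →ₗ[𝕜] E) (n : ℕ) (X : Set E) : Prop :=
  (Lsub 𝕜 n X).Nonempty ∧ ∀ L ∈ Lsub 𝕜 n X, ∀ s, L.map (T s) ∈ Lsub 𝕜 n X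

/-- For every compact `K ⊆ E` the maps `T s|K : K → E` form an equicontinuous family. -/
def Equicont [TopologicalSpace E] (T : S → E →ₗ[𝕜] E) : Prop :=
  ∀ K : Set E, IsCompact K →
    ∀ x ∈ K, ∀ U ∈ 𝓝 (0 : E), ∀ᶠ y in 𝓝[K] x, ∀ s, T s y - T s x ∈ U

/-- For every compact `K ⊆ E`, every map in the closure of `{T s|K}` in the product space `E^K`
is continuous. -/
def QuasiEquicont [TopologicalSpace E] (T : S → E →ₗ[𝕜] E) : Prop :=
  ∀ K : Set E, IsCompact K →
    ∀ h ∈ closure (Set.range (fun (s : S) (x : K) => T s (x : E))), Continuous h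

/-- The conclusion of `(F_n^A)` and of `(F_n^W)`: whenever `X ⊆ E` is `n`-consistent and `H` is a
closed `S`-invariant subspace of codimension `n` with `(x + H) ∩ X` compact for all `x ∈ E`, there
is `L₀ ∈ 𝓛ₙ(X)` with `T s (L₀) = L₀` for all `s`. -/
def HasInvariant [TopologicalSpace E] (T : S → E →ₗ[𝕜] E) (n : ℕ) : Prop :=
  ∀ X : Set E, Consistent 𝕜 T n X →
    ∀ H : Submodule 𝕜 E, IsClosed (H : Set E) → (∀ s, H.map (T s) ≤ H) →
      Module.finrank 𝕜 (E ⧸ H) = n →
      (∀ x : E, IsCompact ({y | ∃ h ∈ H, y = x + h} ∩ X)) →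
      ∃ L₀ ∈ Lsub 𝕜 n X, ∀ s, L₀.map (T s) = L₀

end

/-- Property `(F_n^A)` of the F-algebra `F`, for locally convex spaces over `𝕜`: for every separated
locally convex space `E` and every representation `T` of `S = P₁(A)` on `E` which is equicontinuous
on compact sets and for which `s ↦ T s x` is continuous for each `x`. -/
def PropertyFA (𝕜 : Type) [RCLike 𝕜] (F : FAlgebra) (n : ℕ) : Prop :=
  ∀ (E : Type) [AddCommGroup E] [Module 𝕜 E] [Module ℝ E] [IsScalarTower ℝ 𝕜 E]
    [TopologicalSpace E] [IsTopologicalAddGroup E] [ContinuousSMul 𝕜 E]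
    [LocallyConvexSpace ℝ E] [T2Space E] (T : F.P1 → E →ₗ[𝕜] E),
    (∀ s t u : F.P1, (u : F.A) = s * t → T u = (T s).comp (T t)) →
    (∀ x : E, Continuous fun s : F.P1 => T s x) → Equicont 𝕜 T → HasInvariant 𝕜 T n

/-- Property `(F_n^W)` of the F-algebra `F`, for locally convex spaces over `𝕜`: for every separated
locally convex space `E` and every representation `T` of `S = P₁(A)` on `E` which is
quasi-equicontinuous on compact sets and for which `s ↦ T s x` is continuous for each `x`. -/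
def PropertyFW (𝕜 : Type) [RCLike 𝕜] (F : FAlgebra) (n : ℕ) : Prop :=
  ∀ (E : Type) [AddCommGroup E] [Module 𝕜 E] [Module ℝ E] [IsScalarTower ℝ 𝕜 E]
    [TopologicalSpace E] [IsTopologicalAddGroup E] [ContinuousSMul 𝕜 E]
    [LocallyConvexSpace ℝ E] [T2Space E] (T : F.P1 → E →ₗ[𝕜] E),
    (∀ s t u : F.P1, (u : F.A) = s * t → T u = (T s).comp (T t)) →
    (∀ x : E, Continuous fun s : F.P1 => T s x) → QuasiEquicont 𝕜 T → HasInvariant 𝕜 T n

end Pool.Agent.R298.FS
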