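import Mathlib
import Pool.Agent.R298.FA.Stmt
import Pool.Agent.R298.FA.Space

/-!
# The counterexample
-/

open scoped Topology

namespace Pool.Agent.R298.FA

/-- The F-algebra `ℓ¹(Gam)`. -/
noncomputable def F₀ : FS.FAlgebra where
  A := EllM Gam
  M := LInf Gam
  pair := fun f a => (ellF Gam).dual f a
  predual := ⟨(ellF Gam).dual, fun _ _ => rfl⟩
  one_mul := (ellF Gam).one_mul

lemma act_eq {f : LInf Gam} {a : EllM Gam} {g : LInf Gam}
    (h : ∀ x, (ellF Gam).dual g x = (ellF Gam).dual f (a * x)) :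
    (ellF Gam).dual g = act (EllM Gam) ((ellF Gam).dual f) a :=
  ContinuousLinearMap.ext h

lemma mem_WAP_of_WAP {f : LInf Gam} (hf : f ∈ F₀.WAP) :
    (ellF Gam).dual f ∈ WAP (EllM Gam) := by
  obtain ⟨R, hR, K, hK, hRK⟩ := hf
  let φ : LInf Gam →L[ℂ] VV := ((ellF Gam).dual : LInf Gam ≃L[ℂ] VV)
  refine ⟨WeakSpace.map φ '' K, hK.image (WeakSpace.map φ).continuous, fun a ha => ?_⟩
  refine ⟨toWeakSpace ℂ (LInf Gam) (R a), hRK a ha, ?_⟩
  exact congrArg (toWeakSpace ℂ VV) (act_eq (hR a))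

lemma mem_WAP_of_AP {f : LInf Gam} (hf : f ∈ F₀.AP) :
    (ellF Gam).dual f ∈ WAP (EllM Gam) := by
  obtain ⟨R, hR, hc⟩ := hf
  apply AP_le_WAP
  have h1 : (fun a : EllM Gam => act (EllM Gam) ((ellF Gam).dual f) a)
      = (ellF Gam).dual ∘ R := by
    funext a
    exact (act_eq (hR a)).symm
  change IsCompactOperator (fun a : EllM Gam => act (EllM Gam) ((ellF Gam).dual f) a)
  rw [h1]
  exact IsCompactOperator.continuous_comp hc (ellF Gam).dual.continuous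

lemma tlim_of_le (V : Set (LInf Gam)) (hV : ∀ f ∈ V, (ellF Gam).dual f ∈ WAP (EllM Gam)) :
    ∃ m, F₀.IsTLIM V m := by
  obtain ⟨m, hm, hm1, hmi⟩ := exists_mean'
  have hadd : ∀ f g : LInf Gam,
      m ((ellF Gam).dual (f + g)) = m ((ellF Gam).dual f) + m ((ellF Gam).dual g) := by
    intro f g
    rw [map_add, map_add]
  have hsmul : ∀ (c : ℂ) (f : LInf Gam),
      m ((ellF Gam).dual (c • f)) = c * m ((ellF Gam).dual f) := by
    intro c f
    rw [map_smul, map_smul, smul_eq_mul]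
  have hnorm : ∀ f : LInf Gam, ‖m ((ellF Gam).dual f)‖ ≤ ‖f‖ := by
    intro f
    refine (m.le_opNorm _).trans ?_
    rw [(ellF Gam).dual.norm_map]
    exact mul_le_of_le_one_left (norm_nonneg _) hm
  refine ⟨fun f => m ((ellF Gam).dual f), fun f _ g _ => hadd f g, fun c f _ => hsmul c f,
    fun f _ => hnorm f, hm1, ?_⟩
  intro f hf a ha g hg
  change m ((ellF Gam).dual g) = m ((ellF Gam).dual f)
  rw [act_eq hg]
  exact hmi _ (hV f hf) a ha

theorem tlim_AP : ∃ m, F₀.IsTLIM F₀.AP m := tlim_of_le _ fun _ hf => mem_WAP_of_AP hf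

theorem tlim_WAP : ∃ m, F₀.IsTLIM F₀.WAP m := tlim_of_le _ fun _ hf => mem_WAP_of_WAP hf

theorem not_FA' (𝕜 : Type) [RCLike 𝕜] : ¬ FS.PropertyFA 𝕜 F₀ 1 := by
  intro h
  refine not_FA 𝕜 ?_
  intro E _ _ _ _ _ _ _ _ _ T h1 h2 h3
  exact h E T h1 h2 h3

theorem not_FW' (𝕜 : Type) [RCLike 𝕜] : ¬ FS.PropertyFW 𝕜 F₀ 1 := by
  intro h
  refine not_FW 𝕜 ?_
  intro E _ _ _ _ _ _ _ _ _ T h1 h2 h3
  exact h E T h1 h2 h3

end Pool.Agent.R298.FA
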